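import Pool.Agent.V5helper84.SR.Types

/-!
# Weil numbers without relations between four slopes
-/

set_option autoImplicit false
set_option linter.unusedSectionVars false

namespace Pool.Agent.V5helper84.SR

open NumberField Module Polynomial Pool.Agent.H204R3.CM

noncomputable section

open Classical in
/-- the slopes of `x` are `(b + c M) / 2` in `Φ` and `(b - c M) / 2` outside of `Φ` -/
def Slopes {p : ℕ} [Fact p.Prime] (ν : PadicAlgCl p ≃+* ℂ) {E : Type} [Field E]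
    (M : (E →+* ℂ) → ℝ) (Φ : Set (E →+* ℂ)) (b c : ℝ) (x : E) : Prop :=
  ∀ φ : E →+* ℂ, 2 * (- Real.logb p ‖ν.symm (φ x)‖) - b = c * (if φ ∈ Φ then M φ else - M φ)

section

variable {p : ℕ} [hp : Fact p.Prime] (ν : PadicAlgCl p ≃+* ℂ) {I : Type} {K : I → Type}
  [∀ i, Field (K i)]

/-- the valuation -/
def vv (t : ℂ) : ℝ := - Real.logb p ‖ν.symm t‖

theorem vv_mul {s t : ℂ} (hs : s ≠ 0) (ht : t ≠ 0) : vv ν (s * t) = vv ν s + vv ν t := by
  unfold vv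
  have h1 : ‖ν.symm s‖ ≠ 0 := norm_ne_zero_iff.2 ((map_ne_zero ν.symm).2 hs)
  have h2 : ‖ν.symm t‖ ≠ 0 := norm_ne_zero_iff.2 ((map_ne_zero ν.symm).2 ht)
  rw [map_mul, norm_mul, Real.logb_mul h1 h2]
  ring

theorem vv_pow {s : ℂ} (n : ℕ) : vv ν (s ^ n) = n * vv ν s := by
  unfold vv
  rw [map_pow, norm_pow, Real.logb_pow]
  ring

/-- the value at the embedding -/
def ev (π : ∀ i, K i) (x : Emb K) : ℂ := x.2 (π x.1)

theorem ev_ac (π : ∀ i, K i) (σ : ℂ ≃+* ℂ) (x : Emb K) : ev π (ac σ x) = σ (ev π x) := rfl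

variable {ν} {M : ∀ i, (K i →+* ℂ) → ℝ} {Φ : ∀ i, Set (K i →+* ℂ)} {b κ : ℝ} {π : ∀ i, K i}

theorem sw_eq (hs : ∀ i, Slopes ν (M i) (Φ i) b κ (π i)) (x : Emb K) :
    2 * vv ν (ev π x) - b = κ * sw (fun x : Emb K => M x.1 x.2) (us Φ) x := by
  classical
  have h1 := hs x.1 x.2
  unfold vv ev
  rw [h1]
  unfold sw us
  by_cases h2 : x.2 ∈ Φ x.1
  · rw [if_pos h2, if_pos (decide_eq_true h2)]
  · rw [if_neg h2, if_neg (by rw [decide_eq_false h2]; exact Bool.false_ne_true)]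

theorem ev_ne (hπ : ∀ i, π i ≠ 0) (x : Emb K) : ev π x ≠ 0 := (map_ne_zero x.2).2 (hπ x.1)

theorem rel_of_eq (hs : ∀ i, Slopes ν (M i) (Φ i) b κ (π i)) (hκ : κ ≠ 0) (hπ : ∀ i, π i ≠ 0)
    {x y z w : Emb K} (h : ev π x * ev π w = ev π z * ev π y) :
    Rel4 (fun x : Emb K => M x.1 x.2) ac (x, y, z, w) (us Φ) := by
  intro σ
  have h1 : ev π (ac σ x) * ev π (ac σ w) = ev π (ac σ z) * ev π (ac σ y) := by
    rw [ev_ac, ev_ac, ev_ac, ev_ac, ← map_mul, h, map_mul]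
  have h2 := congrArg (vv ν) h1
  rw [vv_mul ν (ev_ne hπ _) (ev_ne hπ _), vv_mul ν (ev_ne hπ _) (ev_ne hπ _)] at h2
  have hx := sw_eq hs (ac σ x)
  have hy := sw_eq hs (ac σ y)
  have hz := sw_eq hs (ac σ z)
  have hw := sw_eq hs (ac σ w)
  have h3 : κ * (sw (fun x : Emb K => M x.1 x.2) (us Φ) (ac σ x) +
      sw (fun x : Emb K => M x.1 x.2) (us Φ) (ac σ w)) =
      κ * (sw (fun x : Emb K => M x.1 x.2) (us Φ) (ac σ z) +
        sw (fun x : Emb K => M x.1 x.2) (us Φ) (ac σ y)) := by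
    rw [mul_add, mul_add]
    linarith
  exact mul_left_cancel₀ hκ h3

theorem rel_of_pow (hs : ∀ i, Slopes ν (M i) (Φ i) b κ (π i)) (hκ : κ ≠ 0)
    {x y : Emb K} {n : ℕ} (hn : 0 < n) (h : ev π x ^ n = ev π y ^ n) :
    Rel4 (fun x : Emb K => M x.1 x.2) ac (x, y, x, x) (us Φ) := by
  intro σ
  have h1 : ev π (ac σ x) ^ n = ev π (ac σ y) ^ n := by
    rw [ev_ac, ev_ac, ← map_pow, h, map_pow]
  have h2 := congrArg (vv ν) h1
  rw [vv_pow, vv_pow] at h2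
  have hn' : (n : ℝ) ≠ 0 := by exact_mod_cast hn.ne'
  have h4 := mul_left_cancel₀ hn' h2
  have hx := sw_eq hs (ac σ x)
  have hy := sw_eq hs (ac σ y)
  rw [h4] at hx
  have h3 : sw (fun x : Emb K => M x.1 x.2) (us Φ) (ac σ x) =
      sw (fun x : Emb K => M x.1 x.2) (us Φ) (ac σ y) := mul_left_cancel₀ hκ (hx.symm.trans hy)
  change sw (fun x : Emb K => M x.1 x.2) (us Φ) (ac σ x) +
    sw (fun x : Emb K => M x.1 x.2) (us Φ) (ac σ x) =
    sw (fun x : Emb K => M x.1 x.2) (us Φ) (ac σ x) +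
    sw (fun x : Emb K => M x.1 x.2) (us Φ) (ac σ y)
  rw [h3]

variable [∀ i, NumberField (K i)] [∀ i, IsCMField (K i)]

theorem nontriv_xyxx {x y : Emb K} (h : x ≠ y) : Nontriv cc (x, y, x, x) :=
  ⟨h, fun h1 => h h1.2, fun h1 => cc_ne x h1.2.symm⟩

theorem ev_inj (hG : Good M Φ) (hs : ∀ i, Slopes ν (M i) (Φ i) b κ (π i)) (hκ : κ ≠ 0)
    (hπ : ∀ i, π i ≠ 0) : Function.Injective (ev π) := by
  intro x y hxy
  by_contra hne
  exact hG _ (nontriv_xyxx hne) (rel_of_eq hs hκ hπ (by rw [hxy]))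

variable [Fintype I]

theorem aeval_prod_iff (π : ∀ i, K i) (t : ℂ) :
    aeval t (∏ i, minpoly ℚ (π i)) = 0 ↔ ∃ x : Emb K, ev π x = t := by
  have hroot : ∀ i, (Set.range fun φ : K i →+* ℂ => φ (π i)) = (minpoly ℚ (π i)).rootSet ℂ :=
    fun i => NumberField.Embeddings.range_eval_eq_rootSet_minpoly (K i) ℂ (π i)
  have hne : ∀ i, minpoly ℚ (π i) ≠ 0 := fun i =>
    minpoly.ne_zero (Algebra.IsIntegral.isIntegral (π i))
  rw [map_prod, Finset.prod_eq_zero_iff]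
  constructor
  · rintro ⟨i, -, hi⟩
    have h1 : t ∈ (minpoly ℚ (π i)).rootSet ℂ := (mem_rootSet_of_ne (hne i)).2 hi
    rw [← hroot i] at h1
    obtain ⟨φ, hφ⟩ := h1
    exact ⟨⟨i, φ⟩, hφ⟩
  · rintro ⟨⟨i, φ⟩, h⟩
    refine ⟨i, Finset.mem_univ i, ?_⟩
    have h1 : t ∈ (Set.range fun φ : K i →+* ℂ => φ (π i)) := ⟨φ, h⟩
    rw [hroot i] at h1
    exact (mem_rootSet_of_ne (hne i)).1 h1

theorem generic_of_good {a : ℕ} (hG : Good M Φ) (hs : ∀ i, Slopes ν (M i) (Φ i) b κ (π i))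
    (hκ : κ ≠ 0) (hw : ∀ i, π i * IsCMField.complexConj (K i) (π i) = (p : K i) ^ a) :
    Generic (∏ i, minpoly ℚ (π i)) ((p : ℚ) ^ a) := by
  have hp0 : ∀ i, ((p : K i) ^ a) ≠ 0 := fun i =>
    pow_ne_zero a (Nat.cast_ne_zero.2 hp.out.ne_zero)
  have hπ : ∀ i, π i ≠ 0 := by
    intro i h
    have h1 := hw i
    rw [h, zero_mul] at h1
    exact hp0 i h1.symm
  have hinj := ev_inj hG hs hκ hπ
  have hconj : ∀ x : Emb K, ev π (cc x) * ev π x = (((p : ℚ) ^ a : ℚ) : ℂ) := by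
    rintro ⟨i, φ⟩
    have h1 := IsCMField.complexEmbedding_complexConj (K i) φ (π i)
    have h2 : ev π (cc ⟨i, φ⟩) = φ (IsCMField.complexConj (K i) (π i)) := h1.symm
    rw [h2]
    change φ _ * φ _ = _
    rw [← map_mul, mul_comm, hw i, map_pow, map_natCast]
    push_cast
    rfl
  refine ⟨?_, ?_, ?_⟩
  · refine separable_prod' (fun i _ j _ hij => ?_) (fun i _ =>
      (minpoly.irreducible (Algebra.IsIntegral.isIntegral (π i))).separable)
    rcases (minpoly.irreducible (Algebra.IsIntegral.isIntegral (π i))).isCoprime_or_dvd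
      (minpoly ℚ (π j)) with h | h
    · exact h
    · exfalso
      let φ : K i →+* ℂ := Classical.arbitrary _
      have h1 : aeval (φ (π i)) (minpoly ℚ (π i)) = 0 := by
        have h2 : φ (π i) ∈ (minpoly ℚ (π i)).rootSet ℂ := by
          rw [← NumberField.Embeddings.range_eval_eq_rootSet_minpoly (K i) ℂ (π i)]
          exact ⟨φ, rfl⟩
        exact (mem_rootSet'.1 h2).2
      have h3 : φ (π i) ∈ (minpoly ℚ (π j)).rootSet ℂ :=
        (mem_rootSet_of_ne (minpoly.ne_zero (Algebra.IsIntegral.isIntegral (π j)))).2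
          (by obtain ⟨r, hr⟩ := h; rw [hr, map_mul, h1, zero_mul])
      rw [← NumberField.Embeddings.range_eval_eq_rootSet_minpoly (K j) ℂ (π j)] at h3
      obtain ⟨ψ, hψ⟩ := h3
      have h4 : (⟨j, ψ⟩ : Emb K) = ⟨i, φ⟩ := hinj hψ
      exact hij (congrArg Sigma.fst h4).symm
  · intro s t hs' ht n hn hst
    obtain ⟨x, rfl⟩ := (aeval_prod_iff π s).1 hs'
    obtain ⟨y, rfl⟩ := (aeval_prod_iff π t).1 ht
    by_contra hne
    have hxy : x ≠ y := fun h => hne (by rw [h])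
    exact hG _ (nontriv_xyxx hxy) (rel_of_pow hs hκ hn hst)
  · intro s t s' t' h1 h2 h3 h4 hst hrel
    obtain ⟨x, rfl⟩ := (aeval_prod_iff π s).1 h1
    obtain ⟨y, rfl⟩ := (aeval_prod_iff π t).1 h2
    obtain ⟨z, rfl⟩ := (aeval_prod_iff π s').1 h3
    obtain ⟨w, rfl⟩ := (aeval_prod_iff π t').1 h4
    have hxy : x ≠ y := fun h => hst (by rw [h])
    by_contra hcon
    rw [not_or] at hcon
    refine hG (x, y, z, w) ⟨hxy, fun h => hcon.1 ?_, fun h => hcon.2 ?_⟩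
      (rel_of_eq hs hκ hπ hrel)
    · have e1 : z = x := h.1
      have e2 : w = y := h.2
      rw [e1, e2]
      exact ⟨rfl, rfl⟩
    · have e1 : z = cc y := h.1
      have e2 : w = cc x := h.2
      rw [e1, e2]
      exact ⟨hconj y, hconj x⟩

end

end

end Pool.Agent.V5helper84.SR
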