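import Mathlib

/-!
# Counting sign functions with a relation between four values
-/

set_option autoImplicit false
set_option linter.unusedSectionVars false

namespace Pool.Agent.V5helper84.SR

open Finset

section chain

variable {α T : Type*}

theorem exists_chain [DecidableEq α] (B : α → Finset α) (hB : ∀ a, (B a).card ≤ 8) :
    ∀ (m : ℕ) (Y : Finset α), 8 * m ≤ Y.card + 7 →
      ∃ l : List α, l.length = m ∧ (∀ a ∈ l, a ∈ Y) ∧ l.Pairwise (fun a b => b ∉ B a) := by
  intro m
  induction m with
  | zero => exact fun Y _ => ⟨[], rfl, fun a ha => absurd ha List.not_mem_nil, List.Pairwise.nil⟩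
  | succ m ih =>
    intro Y hY
    have hpos : 0 < Y.card := by omega
    obtain ⟨y, hy⟩ := Finset.card_pos.1 hpos
    have h1 := Finset.le_card_sdiff (B y) Y
    have h2 := hB y
    obtain ⟨l, hl, hlY, hp⟩ := ih (Y \ B y) (by omega)
    refine ⟨y :: l, by rw [List.length_cons, hl], ?_, ?_⟩
    · intro a ha
      rcases List.mem_cons.1 ha with rfl | ha
      · exact hy
      · exact (Finset.mem_sdiff.1 (hlY a ha)).1
    · exact List.pairwise_cons.2 ⟨fun b hb => (Finset.mem_sdiff.1 (hlY b hb)).2, hp⟩

open Classical in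
theorem count_chain (flip : α → T → T) (hinj : ∀ a, Function.Injective (flip a))
    (Z : α → T → Prop) (B : α → Finset α) :
    ∀ (l : List α) (P : Finset T), l.Pairwise (fun a b => b ∉ B a) →
      (∀ a ∈ l, ∀ u ∈ P, flip a u ∈ P) → (∀ a ∈ l, ∀ u ∈ P, Z a u → ¬ Z a (flip a u)) →
      (∀ a ∈ l, ∀ b ∈ l, b ∉ B a → ∀ u ∈ P, Z a u → Z a (flip b u)) →
      ∀ P' : Finset T, P' ⊆ P → (∀ u ∈ P', ∀ a ∈ l, Z a u) →
        2 ^ l.length * P'.card ≤ P.card := by
  intro l
  induction l with
  | nil =>
    intro P _ _ _ _ P' hP' _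
    rw [List.length_nil, pow_zero, one_mul]
    exact Finset.card_le_card hP'
  | cons y l ih =>
    intro P hp hflip hZ hB P' hP' hPZ
    obtain ⟨hp1, hp2⟩ := List.pairwise_cons.1 hp
    have hmem : ∀ a ∈ l, a ∈ y :: l := fun a ha => List.mem_cons_of_mem y ha
    have hy : y ∈ y :: l := List.mem_cons_self
    have h1 := ih (P.filter fun u => Z y u) hp2
      (fun a ha u hu => Finset.mem_filter.2 ⟨hflip a (hmem a ha) u (Finset.mem_filter.1 hu).1,
        hB y hy a (hmem a ha) (hp1 a ha) u (Finset.mem_filter.1 hu).1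
          (Finset.mem_filter.1 hu).2⟩)
      (fun a ha u hu => hZ a (hmem a ha) u (Finset.mem_filter.1 hu).1)
      (fun a ha b hb hab u hu => hB a (hmem a ha) b (hmem b hb) hab u (Finset.mem_filter.1 hu).1)
      P' (fun u hu => Finset.mem_filter.2 ⟨hP' hu, hPZ u hu y hy⟩)
      (fun u hu a ha => hPZ u hu a (hmem a ha))
    have h3 : 2 * (P.filter fun u => Z y u).card ≤ P.card := by
      have h4 : ((P.filter fun u => Z y u).image (flip y)).card =
          (P.filter fun u => Z y u).card := Finset.card_image_of_injective _ (hinj y)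
      have h5 : Disjoint (P.filter fun u => Z y u) ((P.filter fun u => Z y u).image (flip y)) := by
        rw [Finset.disjoint_left]
        intro u hu hu2
        obtain ⟨v, hv, rfl⟩ := Finset.mem_image.1 hu2
        exact hZ y hy v (Finset.mem_filter.1 hv).1 (Finset.mem_filter.1 hv).2
          (Finset.mem_filter.1 hu).2
      have h6 : (P.filter fun u => Z y u) ∪ (P.filter fun u => Z y u).image (flip y) ⊆ P := by
        refine Finset.union_subset (Finset.filter_subset _ _) fun u hu => ?_
        obtain ⟨v, hv, rfl⟩ := Finset.mem_image.1 hu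
        exact hflip y hy v (Finset.mem_filter.1 hv).1
      have h7 := Finset.card_le_card h6
      rw [Finset.card_union_of_disjoint h5, h4] at h7
      omega
    rw [List.length_cons, pow_succ]
    calc 2 ^ l.length * 2 * P'.card = 2 * (2 ^ l.length * P'.card) := by ring
      _ ≤ 2 * (P.filter fun u => Z y u).card := Nat.mul_le_mul_left 2 h1
      _ ≤ P.card := h3

end chain

section signs

variable {S : Type*} [Fintype S] [DecidableEq S] (c : S → S) (M : S → ℝ)

/-- the signed weights -/
def sw (u : S → Bool) (x : S) : ℝ := if u x then M x else - M x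

/-- the change of a sign function at `y` and `c y` -/
def fl (y : S) (u : S → Bool) : S → Bool := fun x => if x = y ∨ x = c y then ! u x else u x

/-- sign functions -/
def IsSign (u : S → Bool) : Prop := ∀ x, u (c x) = ! u x

variable {c M}

theorem fl_fl (y : S) (u : S → Bool) : fl c y (fl c y u) = u := by
  funext x
  unfold fl
  by_cases h : x = y ∨ x = c y
  · rw [if_pos h, if_pos h, Bool.not_not]
  · rw [if_neg h, if_neg h]

theorem fl_inj (y : S) : Function.Injective (fl c y) := fun u v h => by
  rw [← fl_fl (c := c) y u, h, fl_fl]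

theorem pair_iff (hcc : ∀ x, c (c x) = x) (y x : S) :
    (c x = y ∨ c x = c y) ↔ (x = y ∨ x = c y) := by
  constructor
  · rintro (h | h)
    · right
      rw [← h, hcc]
    · left
      rw [← hcc x, h, hcc]
  · rintro (h | h)
    · right
      rw [h]
    · left
      rw [h, hcc]

theorem isSign_fl (hcc : ∀ x, c (c x) = x) (y : S) {u : S → Bool} (hu : IsSign c u) :
    IsSign c (fl c y u) := by
  intro x
  unfold fl
  by_cases h : x = y ∨ x = c y
  · rw [if_pos h, if_pos ((pair_iff hcc y x).2 h), hu x]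
  · rw [if_neg h, if_neg (fun h2 => h ((pair_iff hcc y x).1 h2)), hu x]

theorem sw_conj (hM : ∀ x, M (c x) = M x) {u : S → Bool} (hu : IsSign c u) (x : S) :
    sw M u (c x) = - sw M u x := by
  unfold sw
  rw [hu x, hM]
  cases u x <;> simp

theorem sw_fl_of_ne {y x : S} (h1 : x ≠ y) (h2 : x ≠ c y) (u : S → Bool) :
    sw M (fl c y u) x = sw M u x := by
  unfold sw fl
  rw [if_neg (not_or.2 ⟨h1, h2⟩)]

theorem sw_fl_of_eq {y x : S} (h : x = y ∨ x = c y) (u : S → Bool) :
    sw M (fl c y u) x = - sw M u x := by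
  unfold sw fl
  rw [if_pos h]
  cases u x <;> simp

/-- the coefficient of `t` at the pair of `t₀` -/
def dd (c : S → S) (t₀ t : S) : ℝ := (if t = t₀ then 1 else 0) - (if t = c t₀ then 1 else 0)

theorem exists_point (hcc : ∀ x, c (c x) = x) (hne : ∀ x, c x ≠ x) {x y z w : S} (hxy : x ≠ y)
    (h1 : ¬ (z = x ∧ w = y)) (h2 : ¬ (z = c y ∧ w = c x)) :
    ∃ t₀, dd c t₀ x + dd c t₀ w - dd c t₀ z - dd c t₀ y ≠ 0 := by
  by_contra hcon
  push Not at hcon
  have hx := hcon x
  have hy := hcon y
  have hxc : x ≠ c x := fun h => hne x h.symm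
  have hyc : y ≠ c y := fun h => hne y h.symm
  unfold dd at hx hy
  rw [if_pos rfl, if_neg hxc, if_neg hxy.symm] at hx
  rw [if_pos rfl, if_neg hyc, if_neg hxy] at hy
  by_cases hzx : z = x
  · have hwy : w ≠ y := fun h => h1 ⟨hzx, h⟩
    rw [if_neg hwy, hzx, if_neg hxy] at hy
    by_cases h3 : w = c y
    · rw [if_pos h3] at hy
      linarith
    · rw [if_neg h3] at hy
      linarith
  · rw [if_neg hzx] at hx
    by_cases h3 : w = c x
    · have h4 : w ≠ x := fun h => hne x (h3.symm.trans h)
      have h5 : z ≠ c y := fun h => h2 ⟨h, h3⟩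
      rw [if_neg h4, if_pos h3] at hx
      have h6 : z ≠ c x := by
        intro h
        rw [if_pos h] at hx
        by_cases h7 : y = c x
        · rw [if_pos h7] at hx; linarith
        · rw [if_neg h7] at hx; linarith
      have h7 : y ≠ c x := by
        intro h
        rw [if_neg h6, if_pos h] at hx
        linarith
      have h8 : w ≠ y := fun h => h7 (h.symm.trans h3)
      have h9 : w ≠ c y := fun h => hxy (by rw [← hcc x, ← h3, h, hcc])
      have h10 : x ≠ c y := fun h => h7 (by rw [h, hcc])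
      rw [if_neg h10, if_neg h8, if_neg h9, if_neg h5] at hy
      by_cases h11 : z = y
      · rw [if_pos h11] at hy; linarith
      · rw [if_neg h11] at hy; linarith
    · rw [if_neg h3] at hx
      by_cases h4 : w = x
      · rw [if_pos h4] at hx
        by_cases h5 : z = c x
        · rw [if_pos h5] at hx
          by_cases h6 : y = c x
          · rw [if_pos h6] at hx; linarith
          · rw [if_neg h6] at hx; linarith
        · rw [if_neg h5] at hx
          by_cases h6 : y = c x
          · rw [if_pos h6] at hx; linarith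
          · rw [if_neg h6] at hx; linarith
      · rw [if_neg h4] at hx
        by_cases h5 : z = c x
        · rw [if_pos h5] at hx
          by_cases h6 : y = c x
          · rw [if_pos h6] at hx; linarith
          · rw [if_neg h6] at hx; linarith
        · rw [if_neg h5] at hx
          by_cases h6 : y = c x
          · rw [if_pos h6] at hx; linarith
          · rw [if_neg h6] at hx; linarith

theorem sw_fl_act {G : Type*} {act : G → S → S} (hinj : ∀ g, Function.Injective (act g))
    (hact : ∀ g x, act g (c x) = c (act g x)) (hne : ∀ x, c x ≠ x) (hM : ∀ x, M (c x) = M x)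
    {u : S → Bool} (hu : IsSign c u) (g : G) (t₀ t : S) :
    sw M (fl c (act g t₀) u) (act g t) = sw M u (act g t) - 2 * dd c t₀ t * sw M u (act g t₀) := by
  unfold dd
  by_cases h1 : t = t₀
  · rw [sw_fl_of_eq (Or.inl (by rw [h1])), if_pos h1, if_neg (fun h => hne t₀ (h.symm.trans h1)), h1]
    ring
  · by_cases h2 : t = c t₀
    · rw [sw_fl_of_eq (Or.inr (by rw [h2, hact])), if_neg h1, if_pos h2, h2, hact, sw_conj hM hu]
      ring
    · rw [sw_fl_of_ne (fun h => h1 (hinj g h)) (fun h => h2 (hinj g (by rw [h, hact]))), if_neg h1,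
        if_neg h2]
      ring

/-- a relation between four values for all elements `g` -/
def Rel4 {G : Type*} (M : S → ℝ) (act : G → S → S) (q : S × S × S × S) (u : S → Bool) : Prop :=
  ∀ g, sw M u (act g q.1) + sw M u (act g q.2.2.2) =
    sw M u (act g q.2.2.1) + sw M u (act g q.2.1)

/-- the nontrivial relations -/
def Nontriv (c : S → S) (q : S × S × S × S) : Prop :=
  q.1 ≠ q.2.1 ∧ ¬ (q.2.2.1 = q.1 ∧ q.2.2.2 = q.2.1) ∧
    ¬ (q.2.2.1 = c q.2.1 ∧ q.2.2.2 = c q.1)

open Classical in
theorem tuple_count {G : Type*} [Inhabited G] {act : G → S → S}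
    (hinj : ∀ g, Function.Injective (act g)) (hact : ∀ g x, act g (c x) = c (act g x))
    (hcc : ∀ x, c (c x) = x) (hne : ∀ x, c x ≠ x) (hM : ∀ x, M (c x) = M x) {m : ℕ}
    (hm : ∀ t₀, 8 * m ≤ (univ.filter (fun y => M y ≠ 0 ∧ ∃ g, act g t₀ = y)).card + 7)
    {q : S × S × S × S} (hq : Nontriv c q) :
    2 ^ m * ((univ.filter (IsSign c)).filter (Rel4 M act q)).card ≤
      (univ.filter (IsSign c)).card := by
  obtain ⟨x, y, z, w⟩ := q
  obtain ⟨hxy, h1, h2⟩ := hq
  obtain ⟨t₀, ht₀⟩ := exists_point hcc hne hxy h1 h2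
  set gy : S → G := fun a => if h : ∃ g, act g t₀ = a then h.choose else default with hgy
  have hgy2 : ∀ a, (∃ g, act g t₀ = a) → act (gy a) t₀ = a := by
    intro a ha
    rw [hgy]
    simp only [dif_pos ha]
    exact ha.choose_spec
  set B : S → Finset S := fun a => ({x, y, z, w} : Finset S).image (act (gy a)) ∪
    ({x, y, z, w} : Finset S).image (fun t => c (act (gy a) t)) with hB
  have hBcard : ∀ a, (B a).card ≤ 8 := by
    intro a
    have h3 : (({x, y, z, w} : Finset S).image (act (gy a))).card ≤ 4 :=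
      Finset.card_image_le.trans Finset.card_le_four
    have h4 : (({x, y, z, w} : Finset S).image (fun t => c (act (gy a) t))).card ≤ 4 :=
      Finset.card_image_le.trans Finset.card_le_four
    exact (Finset.card_union_le _ _).trans (by omega)
  obtain ⟨l, hl, hlY, hp⟩ := exists_chain B hBcard m _ (hm t₀)
  set Z : S → (S → Bool) → Prop := fun a u =>
    sw M u (act (gy a) x) + sw M u (act (gy a) w) =
      sw M u (act (gy a) z) + sw M u (act (gy a) y) with hZdef
  rw [← hl]
  refine count_chain (fl c) fl_inj Z B l (univ.filter (IsSign c)) hp ?_ ?_ ?_ _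
    (Finset.filter_subset _ _) (fun u hu a _ => (Finset.mem_filter.1 hu).2 (gy a))
  · intro a _ u hu
    rw [Finset.mem_filter] at hu ⊢
    exact ⟨Finset.mem_univ _, isSign_fl hcc a hu.2⟩
  · intro a ha u hu hZa hZb
    have hu1 : IsSign c u := (Finset.mem_filter.1 hu).2
    obtain ⟨-, hMa, hga⟩ := Finset.mem_filter.1 (hlY a ha)
    have hga' := hgy2 a hga
    have h3 := fun t => sw_fl_act hinj hact hne hM hu1 (gy a) t₀ t
    rw [hga'] at h3
    have hZa' : sw M u (act (gy a) x) + sw M u (act (gy a) w) =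
      sw M u (act (gy a) z) + sw M u (act (gy a) y) := hZa
    have hZb' : sw M (fl c a u) (act (gy a) x) + sw M (fl c a u) (act (gy a) w) =
      sw M (fl c a u) (act (gy a) z) + sw M (fl c a u) (act (gy a) y) := hZb
    rw [h3, h3, h3, h3] at hZb'
    have h4 : (dd c t₀ x + dd c t₀ w - dd c t₀ z - dd c t₀ y) * sw M u a = 0 := by
      linarith
    rcases mul_eq_zero.1 h4 with h5 | h5
    · exact ht₀ h5
    · unfold sw at h5
      by_cases h6 : u a = true
      · rw [if_pos h6] at h5
        exact hMa h5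
      · rw [if_neg h6] at h5
        exact hMa (neg_eq_zero.1 h5)
  · intro a _ b _ hab u hu hZa
    have h3 : ∀ t ∈ ({x, y, z, w} : Finset S), sw M (fl c b u) (act (gy a) t) =
        sw M u (act (gy a) t) := by
      intro t ht
      rw [hB] at hab
      simp only [Finset.mem_union, not_or] at hab
      refine sw_fl_of_ne (fun h => hab.1 ?_) (fun h => hab.2 ?_) u
      · rw [← h]
        exact Finset.mem_image_of_mem _ ht
      · refine Finset.mem_image.2 ⟨t, ht, ?_⟩
        rw [h, hcc]
    change sw M (fl c b u) (act (gy a) x) + sw M (fl c b u) (act (gy a) w) =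
      sw M (fl c b u) (act (gy a) z) + sw M (fl c b u) (act (gy a) y)
    rw [h3 x (by simp), h3 y (by simp), h3 z (by simp), h3 w (by simp)]
    exact hZa

open Classical in
/-- **The number of the sign functions with a nontrivial relation between four values.** -/
theorem bad_count {G : Type*} [Inhabited G] {act : G → S → S}
    (hinj : ∀ g, Function.Injective (act g)) (hact : ∀ g x, act g (c x) = c (act g x))
    (hcomp : ∀ g g', ∃ g'', ∀ x, act g'' x = act g' (act g x))
    (hcc : ∀ x, c (c x) = x) (hne : ∀ x, c x ≠ x) (hM : ∀ x, M (c x) = M x) {m : ℕ}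
    (hm : ∀ t₀, 8 * m ≤ (univ.filter (fun y => M y ≠ 0 ∧ ∃ g, act g t₀ = y)).card + 7)
    (R : Finset S) (hR : ∀ x, ∃ g, act g x ∈ R) :
    2 ^ m * {u : S → Bool | IsSign c u ∧ ∃ q, Nontriv c q ∧ Rel4 M act q u}.ncard ≤
      R.card * Fintype.card S ^ 3 * {u : S → Bool | IsSign c u}.ncard := by
  set P : Finset (S → Bool) := univ.filter (IsSign c) with hP
  set Q : Finset (S × S × S × S) :=
    (R ×ˢ (univ : Finset (S × S × S))).filter (Nontriv c) with hQ
  have hQcard : Q.card ≤ R.card * Fintype.card S ^ 3 := by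
    refine (Finset.card_filter_le _ _).trans (le_of_eq ?_)
    rw [Finset.card_product, Finset.card_univ, Fintype.card_prod, Fintype.card_prod]
    ring
  have hsub : {u : S → Bool | IsSign c u ∧ ∃ q, Nontriv c q ∧ Rel4 M act q u} ⊆
      ((Q.biUnion fun q => P.filter (Rel4 M act q) : Finset (S → Bool)) : Set (S → Bool)) := by
    rintro u ⟨hu, ⟨x, y, z, w⟩, ⟨hq1, hq2, hq3⟩, hrel⟩
    obtain ⟨g, hg⟩ := hR x
    refine Finset.mem_coe.2 (Finset.mem_biUnion.2 ⟨(act g x, act g y, act g z, act g w), ?_, ?_⟩)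
    · rw [hQ, Finset.mem_filter]
      refine ⟨Finset.mem_product.2 ⟨hg, Finset.mem_univ _⟩, fun h => hq1 (hinj g h),
        fun h => hq2 ⟨hinj g h.1, hinj g h.2⟩, fun h => hq3 ⟨hinj g ?_, hinj g ?_⟩⟩
      · rw [hact]; exact h.1
      · rw [hact]; exact h.2
    · rw [Finset.mem_filter, hP, Finset.mem_filter]
      refine ⟨⟨Finset.mem_univ _, hu⟩, fun g' => ?_⟩
      obtain ⟨g'', hg''⟩ := hcomp g g'
      have h1 := hrel g''
      simp only [hg''] at h1
      exact h1
  have hP2 : {u : S → Bool | IsSign c u}.ncard = P.card := by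
    rw [← Set.ncard_coe_finset, hP]
    congr 1
    ext u
    simp
  have h1 : {u : S → Bool | IsSign c u ∧ ∃ q, Nontriv c q ∧ Rel4 M act q u}.ncard ≤
      (Q.biUnion fun q => P.filter (Rel4 M act q)).card := by
    rw [← Set.ncard_coe_finset]
    exact Set.ncard_le_ncard hsub (Set.toFinite _)
  rw [hP2]
  calc 2 ^ m * {u : S → Bool | IsSign c u ∧ ∃ q, Nontriv c q ∧ Rel4 M act q u}.ncard
      ≤ 2 ^ m * ∑ q ∈ Q, (P.filter (Rel4 M act q)).card :=
        Nat.mul_le_mul_left _ (h1.trans Finset.card_biUnion_le)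
    _ = ∑ q ∈ Q, 2 ^ m * (P.filter (Rel4 M act q)).card := Finset.mul_sum _ _ _
    _ ≤ ∑ _q ∈ Q, P.card := Finset.sum_le_sum fun q hq => tuple_count hinj hact hcc hne hM hm
        (Finset.mem_filter.1 hq).2
    _ = Q.card * P.card := by rw [Finset.sum_const, smul_eq_mul]
    _ ≤ _ := Nat.mul_le_mul_right _ hQcard

end signs

end Pool.Agent.V5helper84.SR
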