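import Pool.Agent.V5helper84.SR.Lin

/-!
# Similitudes with simple eigenvalues and without coincidences between the quotients of eigenvalues
-/

set_option autoImplicit false
set_option linter.unusedSectionVars false

namespace Pool.Agent.V5helper84.SR

open Module Polynomial Pool.Agent.Y114.RM Pool.Agent.V5helper84.QT

noncomputable section

variable {K : Type} [Field K] {V : Type} [AddCommGroup V] [Module K V] [FiniteDimensional K V]

theorem exists_eigenbasis [IsAlgClosed K] (g : End K V) (hs : g.charpoly.Separable) :
    ∃ (ι : Type) (_ : Fintype ι) (_ : DecidableEq ι) (b : Basis ι K V) (z : ι → K),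
      Function.Injective z ∧ (∀ i, g (b i) = z i • b i) ∧ ∀ i, g.charpoly.IsRoot (z i) := by
  classical
  have h1 : ∀ i : {x // x ∈ g.charpoly.roots.toFinset}, ∃ v : V, g.HasEigenvector (i : K) v := by
    rintro ⟨x, hx⟩
    rw [Multiset.mem_toFinset, mem_roots g.charpoly_monic.ne_zero] at hx
    exact ((Module.End.hasEigenvalue_iff_isRoot_charpoly g x).2 hx).exists_hasEigenvector
  choose v hv using h1
  have hlin := Module.End.eigenvectors_linearIndependent' g
    (fun i : {x // x ∈ g.charpoly.roots.toFinset} => (i : K)) Subtype.coe_injective v hv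
  have hcard : Fintype.card {x // x ∈ g.charpoly.roots.toFinset} = finrank K V := by
    rw [Fintype.card_coe, Multiset.toFinset_card_of_nodup (nodup_roots hs),
      splits_iff_card_roots.1 (IsAlgClosed.splits g.charpoly), LinearMap.charpoly_natDegree]
  refine ⟨_, inferInstance, inferInstance, basisOfLinearIndependentOfCardEqFinrank' v hlin hcard,
    fun i => (i : K), Subtype.coe_injective, fun i => ?_, fun i => ?_⟩
  · rw [basisOfLinearIndependentOfCardEqFinrank', Basis.mk_apply]
    exact (hv i).apply_eq_smul
  · exact (mem_roots g.charpoly_monic.ne_zero).1 (Multiset.mem_toFinset.1 i.2)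

section basis

variable {ι : Type} [Fintype ι] [DecidableEq ι] (b : Basis ι K V)

/-- the matrix entries -/
def ent (X : End K V) (i j : ι) : K := b.repr (X (b j)) i

variable {b}

theorem ent_ext {X Y : End K V} (h : ∀ i j, ent b X i j = ent b Y i j) : X = Y :=
  b.ext fun j => b.repr.injective (Finsupp.ext fun i => h i j)

theorem ent_sum (X : End K V) (j : ι) : X (b j) = ∑ i, ent b X i j • b i := (b.sum_repr _).symm

variable {g g' : End K V} {z : ι → K} (h : g * g' = 1) (h' : g' * g = 1)
  (hb : ∀ i, g (b i) = z i • b i)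

include h' hb in
theorem z_ne (i : ι) : z i ≠ 0 := by
  intro h0
  have h1 := hb i
  rw [h0, zero_smul] at h1
  have h2 := LinearMap.congr_fun h' (b i)
  rw [Module.End.mul_apply, h1, map_zero, Module.End.one_apply] at h2
  exact b.ne_zero i h2.symm

include h' hb in
theorem inv_apply (i : ι) : g' (b i) = (z i)⁻¹ • b i := by
  have h2 := LinearMap.congr_fun h' (b i)
  rw [Module.End.mul_apply, hb, map_smul, Module.End.one_apply] at h2
  rw [← h2, smul_smul, inv_mul_cancel₀ (z_ne h' hb i), one_smul, h2]

include hb in
theorem repr_g (v : V) (i : ι) : b.repr (g v) i = z i * b.repr v i := by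
  conv_lhs => rw [← b.sum_repr v]
  simp only [map_sum, map_smul, hb, smul_smul]
  rw [Finsupp.finsetSum_apply, Finset.sum_eq_single i]
  · rw [Finsupp.smul_apply, b.repr_self, Finsupp.single_eq_same, smul_eq_mul, mul_one, mul_comm]
  · intro j _ hj
    rw [Finsupp.smul_apply, b.repr_self, Finsupp.single_eq_of_ne (Ne.symm hj), smul_zero]
  · intro hi
    exact absurd (Finset.mem_univ i) hi

include h' hb in
theorem ent_cj (X : End K V) (i j : ι) :
    ent b (cj g g' X) i j = z i / z j * ent b X i j := by
  rw [ent, cj_apply, Module.End.mul_apply, Module.End.mul_apply, inv_apply h' hb, map_smul,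
    map_smul, map_smul, Finsupp.smul_apply, repr_g hb, smul_eq_mul, ent]
  ring

include h' hb in
theorem ent_pow (μ : K) (n : ℕ) : ∀ (X : End K V) (i j : ι),
    ent b (((cj g g' - algebraMap K (End K (End K V)) μ) ^ n) X) i j =
      (z i / z j - μ) ^ n * ent b X i j := by
  induction n with
  | zero =>
    intro X i j
    rw [pow_zero, pow_zero, one_mul, Module.End.one_apply]
  | succ n ih =>
    intro X i j
    rw [pow_succ, Module.End.mul_apply, ih]
    have h1 : ent b ((cj g g' - algebraMap K (End K (End K V)) μ) X) i j =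
        (z i / z j - μ) * ent b X i j := by
      rw [LinearMap.sub_apply, Module.algebraMap_end_apply]
      have h2 : ent b (cj g g' X - μ • X) i j = ent b (cj g g' X) i j - μ * ent b X i j := by
        rw [ent, LinearMap.sub_apply, map_sub, Finsupp.sub_apply, LinearMap.smul_apply, map_smul,
          Finsupp.smul_apply, smul_eq_mul]
        rfl
      rw [h2, ent_cj h' hb]
      ring
    rw [h1]
    ring

include h' hb in
theorem ent_ge {μ : K} {X : End K V} (hX : X ∈ ge g g' μ) {i j : ι} (hij : ent b X i j ≠ 0) :
    z i = μ * z j := by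
  rw [mem_ge] at hX
  obtain ⟨n, hn⟩ := hX
  have h1 := ent_pow h' hb μ n X i j
  rw [hn] at h1
  have h2 : ent b (0 : End K V) i j = 0 := by
    rw [ent, LinearMap.zero_apply, map_zero, Finsupp.zero_apply]
  rw [h2] at h1
  have h3 : (z i / z j - μ) ^ n = 0 := (mul_eq_zero.1 h1.symm).resolve_right hij
  have h4 : z i / z j = μ := by
    by_contra h5
    exact pow_ne_zero n (sub_ne_zero.2 h5) h3
  rw [← h4, div_mul_cancel₀ _ (z_ne h' hb j)]

/-- **Generic similitudes separate the roots.** -/
theorem sep_of_generic (hz : Function.Injective z) {ω : V →ₗ[K] V →ₗ[K] K}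
    (hnd : ∀ u, (∀ v, ω u v = 0) → u = 0) {q : K} (h : g * g' = 1) (h' : g' * g = 1)
    (hb : ∀ i, g (b i) = z i • b i) (hq : ∀ u v, ω (g u) (g v) = q * ω u v)
    {G : Submodule K (End K V)}
    (hG : ∀ X ∈ G, ∃ c : K, ∀ u v, ω (X u) v + ω u (X v) = c * ω u v)
    (huni : ∀ (i j : ι) (n : ℕ), 0 < n → z i ^ n = z j ^ n → i = j)
    (hgen : ∀ i j k l : ι, i ≠ j → z i * z l = z k * z j →
      (k = i ∧ l = j) ∨ (z k * z j = q ∧ z l * z i = q)) : Sep g g' G := by
  have hz0 := z_ne h' hb
  have hdual : ∀ i j : ι, ω (b i) (b j) ≠ 0 → z i * z j = q := by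
    intro i j hij
    have h1 := hq (b i) (b j)
    rw [hb, hb, map_smul, map_smul, LinearMap.smul_apply, smul_eq_mul, smul_eq_mul,
      ← mul_assoc, mul_comm (z j)] at h1
    exact mul_right_cancel₀ hij h1
  refine ⟨?_, ?_, ?_⟩
  · -- the centralizer is diagonal
    have hd : ∀ X ∈ ge g g' (1 : K), ∀ i j, i ≠ j → ent b X i j = 0 := by
      intro X hX i j hij
      by_contra hne
      have h1 := ent_ge h' hb hX hne
      rw [one_mul] at h1
      exact hij (hz h1)
    have hd2 : ∀ X ∈ ge g g' (1 : K), ∀ j, X (b j) = ent b X j j • b j := by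
      intro X hX j
      rw [ent_sum, Finset.sum_eq_single j]
      · intro i _ hij
        rw [hd X hX i j hij, zero_smul]
      · intro hj
        exact absurd (Finset.mem_univ j) hj
    intro X _ hX Y _ hY
    refine b.ext fun j => ?_
    rw [Module.End.mul_apply, Module.End.mul_apply, hd2 Y hY, hd2 X hX, map_smul, map_smul,
      hd2 Y hY, hd2 X hX, smul_comm]
  · intro μ n hμ hn hμn X _ hX
    refine ent_ext (b := b) fun i j => ?_
    have h2 : ent b (0 : End K V) i j = 0 := by
      rw [ent, LinearMap.zero_apply, map_zero, Finsupp.zero_apply]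
    rw [h2]
    by_contra hne
    have h1 := ent_ge h' hb hX hne
    have h3 : z i ^ n = z j ^ n := by rw [h1, mul_pow, hμn, one_mul]
    have h4 := huni i j n hn h3
    rw [h4] at h1
    exact hμ (mul_right_cancel₀ (hz0 j) (by rw [one_mul]; exact h1.symm))
  · intro μ hμ X hXG hX Y hYG hY hX0
    obtain ⟨i, j, hij⟩ : ∃ i j, ent b X i j ≠ 0 := by
      by_contra hcon
      push Not at hcon
      apply hX0
      refine ent_ext (b := b) fun i j => ?_
      rw [hcon i j, ent, LinearMap.zero_apply, map_zero, Finsupp.zero_apply]
    have hzij := ent_ge h' hb hX hij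
    have hne : i ≠ j := by
      rintro rfl
      exact hμ (mul_right_cancel₀ (hz0 i) (by rw [one_mul]; exact hzij.symm))
    refine ⟨ent b Y i j / ent b X i j, ?_⟩
    rw [← sub_eq_zero]
    obtain ⟨D, hD⟩ : ∃ D, D = Y - (ent b Y i j / ent b X i j) • X := ⟨_, rfl⟩
    rw [← hD]
    have hDG : D ∈ G := by
      rw [hD]
      exact G.sub_mem hYG (G.smul_mem _ hXG)
    have hDμ : D ∈ ge g g' μ := by
      rw [hD]
      exact Submodule.sub_mem _ hY (Submodule.smul_mem _ _ hX)
    have hDij : ent b D i j = 0 := by
      rw [hD, ent, LinearMap.sub_apply, map_sub, Finsupp.sub_apply, LinearMap.smul_apply, map_smul,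
        Finsupp.smul_apply, smul_eq_mul]
      change ent b Y i j - ent b Y i j / ent b X i j * ent b X i j = 0
      rw [div_mul_cancel₀ _ hij, sub_self]
    refine ent_ext (b := b) fun k l => ?_
    have h0 : ent b (0 : End K V) k l = 0 := by
      rw [ent, LinearMap.zero_apply, map_zero, Finsupp.zero_apply]
    rw [h0]
    by_contra hkl
    have hzkl := ent_ge h' hb hDμ hkl
    have hrel : z i * z l = z k * z j := by
      rw [hzij, hzkl]
      ring
    rcases hgen i j k l hne hrel with ⟨rfl, rfl⟩ | ⟨h1, h2⟩
    · exact hkl hDij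
    · obtain ⟨c, hc⟩ := hG D hDG
      have h3 := hc (b j) (b l)
      have e1 : ω (D (b j)) (b l) = 0 := by
        rw [ent_sum D j, map_sum, LinearMap.sum_apply]
        refine Finset.sum_eq_zero fun m _ => ?_
        rw [map_smul, LinearMap.smul_apply, smul_eq_mul]
        by_cases hm : ω (b m) (b l) = 0
        · rw [hm, mul_zero]
        · have h4 := hdual m l hm
          have h5 : z m = z i := mul_right_cancel₀ (hz0 l) (by rw [h4, mul_comm (z i), h2])
          rw [hz h5, hDij, zero_mul]
      have e2 : ω (b j) (b l) = 0 := by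
        by_contra hm
        have h4 := hdual j l hm
        have h5 : z j = z i := mul_right_cancel₀ (hz0 l) (by rw [h4, mul_comm (z i), h2])
        exact hne (hz h5).symm
      have e3 : ω (b j) (D (b l)) = ent b D k l * ω (b j) (b k) := by
        rw [ent_sum D l, map_sum, Finset.sum_eq_single k]
        · rw [map_smul, smul_eq_mul]
        · intro m _ hm
          rw [map_smul, smul_eq_mul]
          by_cases hm2 : ω (b j) (b m) = 0
          · rw [hm2, mul_zero]
          · exfalso
            have h4 := hdual j m hm2
            apply hm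
            apply hz
            exact mul_left_cancel₀ (hz0 j) (by rw [h4, mul_comm (z j) (z k), h1])
        · intro hk
          exact absurd (Finset.mem_univ k) hk
      have e4 : ω (b j) (b k) ≠ 0 := by
        intro h6
        apply b.ne_zero j
        refine hnd (b j) fun v => ?_
        have h7 : ω (b j) = 0 := by
          refine b.ext fun m => ?_
          rw [LinearMap.zero_apply]
          by_contra hm
          have h4 := hdual j m hm
          have h8 : z m = z k := mul_left_cancel₀ (hz0 j) (by rw [h4, mul_comm (z j) (z k), h1])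
          rw [hz h8] at hm
          exact hm h6
        rw [h7, LinearMap.zero_apply]
      rw [e1, e2, e3, zero_add, mul_zero] at h3
      exact (mul_ne_zero hkl e4) h3

end basis

end

end Pool.Agent.V5helper84.SR
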