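import Pool.Agent.V5helper84.SR.Main
import Pool.Agent.V5helper84.SR.Gen
import Pool.Agent.W522.U.C9

/-!
# One element without coincidences between the quotients of its eigenvalues
-/

set_option autoImplicit false
set_option linter.unusedSectionVars false

namespace Pool.Agent.V5helper84.SR

open Module TensorProduct Polynomial Pool.Agent.Y114.RM Pool.Agent.Y114.MU Pool.Agent.Y114.TF
  Pool.Agent.H204R3.GP Pool.Agent.H204R3.SP Pool.Agent.R913.Adj Pool.Agent.R931.BD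
  Pool.Agent.V5helper84.QT Pool.Agent

noncomputable section

section bc

variable {k : Type} [Field k] [CharZero k] {C : Type} [Field C] [Algebra k C] {V : Type}
  [AddCommGroup V] [Module k V] [FiniteDimensional k V]

theorem right_nondeg {ω : V →ₗ[k] V →ₗ[k] k} (hnd : ∀ u, (∀ v, ω u v = 0) → u = 0) :
    ∀ u, (∀ v, ω v u = 0) → u = 0 := by
  intro u hu
  have hinj : Function.Injective ω := by
    rw [← LinearMap.ker_eq_bot, eq_bot_iff]
    intro x hx
    rw [LinearMap.mem_ker] at hx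
    exact (Submodule.mem_bot k).2 (hnd x fun v => by rw [hx, LinearMap.zero_apply])
  have hsurj : Function.Surjective ω :=
    (LinearMap.injective_iff_surjective_of_finrank_eq_finrank
      (Subspace.dual_finrank_eq (K := k) (V := V)).symm).1 hinj
  by_contra hne
  apply hne
  rw [← Module.forall_dual_apply_eq_zero_iff k]
  intro f
  obtain ⟨v, rfl⟩ := hsurj f
  exact hu v

theorem nondeg_bc {ω : V →ₗ[k] V →ₗ[k] k} (hnd : ∀ u, (∀ v, ω u v = 0) → u = 0) :
    ∀ u : C ⊗[k] V, (∀ v, bcb C ω u v = 0) → u = 0 := fun u hu =>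
  W522.U.bcb_nondeg_left ω (right_nondeg hnd) hnd u hu

theorem ext_bc {B B' : (C ⊗[k] V) →ₗ[C] (C ⊗[k] V) →ₗ[C] C}
    (h : ∀ x y : V, B ((1 : C) ⊗ₜ[k] x) ((1 : C) ⊗ₜ[k] y) =
      B' ((1 : C) ⊗ₜ[k] x) ((1 : C) ⊗ₜ[k] y)) : B = B' := by
  have b := Module.finBasis k V
  refine LinearMap.ext_basis (b.baseChange C) (b.baseChange C) fun x y => ?_
  rw [Basis.baseChange_apply, Basis.baseChange_apply]
  exact h _ _

theorem sim_bc {ω : V →ₗ[k] V →ₗ[k] k} {g : End k V} {q : k}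
    (hq : ∀ u v, ω (g u) (g v) = q * ω u v) (u v : C ⊗[k] V) :
    bcb C ω (g.baseChange C u) (g.baseChange C v) = algebraMap k C q * bcb C ω u v := by
  have h1 : (bcb C ω).compl₁₂ (g.baseChange C) (g.baseChange C) =
      algebraMap k C q • bcb C ω := by
    refine ext_bc fun x y => ?_
    rw [LinearMap.compl₁₂_apply, LinearMap.baseChange_tmul, LinearMap.baseChange_tmul, bcb_one, hq,
      LinearMap.smul_apply, LinearMap.smul_apply, bcb_one, map_mul, smul_eq_mul]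
  exact congrArg (fun F => F u v) h1

theorem inf_bc {ω : V →ₗ[k] V →ₗ[k] k} {G : Submodule k (End k V)}
    (hG : ∀ X ∈ G, ∃ c : k, ∀ u v, ω (X u) v + ω u (X v) = c * ω u v) :
    ∀ X ∈ bcS C G, ∃ c : C, ∀ u v, bcb C ω (X u) v + bcb C ω u (X v) = c * bcb C ω u v := by
  intro X hX
  induction hX using Submodule.span_induction with
  | mem X hX =>
    obtain ⟨Y, hY, rfl⟩ := hX
    obtain ⟨c, hc⟩ := hG Y hY
    refine ⟨algebraMap k C c, fun u v => ?_⟩
    have h1 : (bcb C ω).comp (Y.baseChange C) + (bcb C ω).compl₂ (Y.baseChange C) =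
        algebraMap k C c • bcb C ω := by
      refine ext_bc fun x y => ?_
      rw [LinearMap.add_apply, LinearMap.add_apply, LinearMap.comp_apply, LinearMap.compl₂_apply,
        LinearMap.baseChange_tmul, LinearMap.baseChange_tmul, bcb_one, bcb_one, ← map_add, hc,
        LinearMap.smul_apply, LinearMap.smul_apply, bcb_one, map_mul, smul_eq_mul]
    exact congrArg (fun F => F u v) h1
  | zero =>
    exact ⟨0, fun u v => by
      rw [LinearMap.zero_apply, LinearMap.zero_apply, map_zero, map_zero, LinearMap.zero_apply,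
        add_zero, zero_mul]⟩
  | add X Y _ _ hX hY =>
    obtain ⟨c, hc⟩ := hX
    obtain ⟨d, hd⟩ := hY
    refine ⟨c + d, fun u v => ?_⟩
    rw [LinearMap.add_apply, LinearMap.add_apply, map_add, map_add, LinearMap.add_apply, add_mul,
      ← hc, ← hd]
    ring
  | smul a X _ hX =>
    obtain ⟨c, hc⟩ := hX
    refine ⟨a * c, fun u v => ?_⟩
    rw [LinearMap.smul_apply, LinearMap.smul_apply, map_smul, map_smul, LinearMap.smul_apply,
      smul_eq_mul, smul_eq_mul, mul_assoc, ← hc]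
    ring

/-- The polynomial `P` with rational coefficients has simple roots, no quotient of two different
complex roots is a root of unity, and `x / y = z / w` for roots `x ≠ y`, `z`, `w` only if
`(z, w) = (x, y)` or `(z, w) = (q / y, q / x)`. -/
structure Generic (P : ℚ[X]) (q : ℚ) : Prop where
  separable : P.Separable
  unity : ∀ x y : ℂ, aeval x P = 0 → aeval y P = 0 → ∀ n : ℕ, 0 < n → x ^ n = y ^ n → x = y
  coincidence : ∀ x y z w : ℂ, aeval x P = 0 → aeval y P = 0 → aeval z P = 0 → aeval w P = 0 →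
    x ≠ y → x * w = z * y → (z = x ∧ w = y) ∨ (z * y = (q : ℂ) ∧ w * x = (q : ℂ))

theorem sep_of_frob [Algebra k ℂ] {g g' : End k V} (h : g * g' = 1) (h' : g' * g = 1)
    {ω : V →ₗ[k] V →ₗ[k] k} (hnd : ∀ u, (∀ v, ω u v = 0) → u = 0) {q : ℚ}
    (hq : ∀ u v, ω (g u) (g v) = (q : k) * ω u v) {G : Submodule k (End k V)}
    (hG : ∀ X ∈ G, ∃ c : k, ∀ u v, ω (X u) v + ω u (X v) = c * ω u v) {P : ℚ[X]}
    (hP : g.charpoly = P.map (algebraMap ℚ k)) (hgen : Generic P q) :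
    Sep (g.baseChange ℂ) (g'.baseChange ℂ) (bcS ℂ G) := by
  have hgg : g.baseChange ℂ * g'.baseChange ℂ = 1 := by
    rw [← bc_mul, h]
    exact LinearMap.baseChange_id
  have hgg' : g'.baseChange ℂ * g.baseChange ℂ = 1 := by
    rw [← bc_mul, h']
    exact LinearMap.baseChange_id
  have hPC : (g.baseChange ℂ).charpoly = P.map (algebraMap ℚ ℂ) := by
    rw [LinearMap.charpoly_baseChange, hP, Polynomial.map_map]
    congr 1
    exact Subsingleton.elim _ _
  obtain ⟨ι, hι, hd, b, z, hz, hb, hr⟩ := exists_eigenbasis (g.baseChange ℂ) (by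
    rw [hPC]
    exact hgen.separable.map)
  have hroot : ∀ i, aeval (z i) P = 0 := by
    intro i
    have h1 := hr i
    rw [hPC, IsRoot.def, eval_map_algebraMap] at h1
    exact h1
  have hqC : (algebraMap k ℂ) (q : k) = (q : ℂ) := map_ratCast _ _
  refine sep_of_generic hz (nondeg_bc hnd) hgg hgg' hb (q := (q : ℂ)) (fun u v => ?_)
    (inf_bc hG) (fun i j n hn hij => hz (hgen.unity _ _ (hroot i) (hroot j) n hn hij))
    fun i j k l hij hrel => ?_
  · rw [sim_bc hq, hqC]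
  · rcases hgen.coincidence _ _ _ _ (hroot i) (hroot j) (hroot k) (hroot l)
      (fun h1 => hij (hz h1)) hrel with ⟨h1, h2⟩ | ⟨h1, h2⟩
    · exact Or.inl ⟨hz h1, hz h2⟩
    · exact Or.inr ⟨h1, h2⟩

end bc

section main

variable {ι : Type} [Fintype ι] [DecidableEq ι] {n : ι → ℕ} {ℓ : ℕ} [hℓ : Fact ℓ.Prime]
  {Γ : Type} [Group Γ] [TopologicalSpace Γ] [IsTopologicalGroup Γ] [CompactSpace Γ]
  (ρ : ∀ i, Representation ℚ_[ℓ] Γ (Fin (n i) → ℚ_[ℓ]))
  {𝔤 : Submodule ℚ_[ℓ] (End ℚ_[ℓ] (∀ i, Fin (n i) → ℚ_[ℓ]))}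

theorem tate_of_generic (hρ : ∀ i, Continuous fun g => LinearMap.toMatrix' (ρ i g))
    (h𝔤 : IsMotivic ρ 𝔤) (hss : FiniteIndexSemisimple (sumRep ρ)) (hE : EndoT (sumRep ρ) 𝔤)
    (hC : CentreT (sumRep ρ) 𝔤) (γ : Γ)
    (hγ : ∀ X ∈ 𝔤, sumRep ρ γ * X * sumRep ρ γ⁻¹ ∈ 𝔤)
    {ω : (∀ i, Fin (n i) → ℚ_[ℓ]) →ₗ[ℚ_[ℓ]] (∀ i, Fin (n i) → ℚ_[ℓ]) →ₗ[ℚ_[ℓ]] ℚ_[ℓ]}
    (hnd : ∀ u, (∀ v, ω u v = 0) → u = 0) {q : ℚ}
    (hq : ∀ u v, ω (sumRep ρ γ u) (sumRep ρ γ v) = (q : ℚ_[ℓ]) * ω u v)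
    (hG : ∀ X ∈ 𝔤, ∃ c : ℚ_[ℓ], ∀ u v, ω (X u) v + ω u (X v) = c * ω u v) {P : ℚ[X]}
    (hP : (sumRep ρ γ).charpoly = P.map (algebraMap ℚ ℚ_[ℓ])) (hgen : Generic P q)
    (m : ℕ) (φ : Tensor ℚ_[ℓ] (∀ i, Fin (n i) → ℚ_[ℓ]) m) :
    TateTensor (sumRep ρ) φ ↔ ∀ X ∈ 𝔤, KillsTensor X φ := by
  obtain ⟨j⟩ := R913.Adj.exists_emb ℓ
  letI alg : Algebra ℚ_[ℓ] ℂ := j.toAlgebra
  exact tate_of_sep ρ hρ h𝔤 hss hE hC alg γ hγ
    (sep_of_frob (rmi (sumRep ρ) γ) (rim (sumRep ρ) γ) hnd hq hG hP hgen) m φ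

end main

end

end Pool.Agent.V5helper84.SR
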