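import Pool.Agent.V5helper84.QT.Main
import Pool.Agent.Y114.RM.Stm5

/-!
# Lie algebras stable under an element which separates the roots: linear algebra
-/

set_option autoImplicit false
set_option linter.unusedSectionVars false

namespace Pool.Agent.V5helper84.SR

open Module Pool.Agent.Y114.RM Pool.Agent.V5helper84.QT

noncomputable section

variable {K : Type} [Field K] {V : Type} [AddCommGroup V] [Module K V]

/-- the conjugation `X ↦ g X g'` -/
def cj (g g' : End K V) : End K (End K V) := LinearMap.mulLeft K g * LinearMap.mulRight K g'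

theorem cj_apply (g g' X : End K V) : cj g g' X = g * X * g' := (mul_assoc _ _ _).symm

/-- the generalized eigenspaces of the conjugation -/
def ge (g g' : End K V) (μ : K) : Submodule K (End K V) :=
  Module.End.maxGenEigenspace (cj g g') μ

theorem mem_ge {g g' : End K V} {μ : K} {X : End K V} :
    X ∈ ge g g' μ ↔ ∃ n : ℕ, ((cj g g' - algebraMap K _ μ) ^ n) X = 0 := by
  rw [ge, Module.End.mem_maxGenEigenspace]
  rfl

variable {g g' : End K V}

theorem cj_mul (h' : g' * g = 1) (X Y : End K V) : cj g g' (X * Y) = cj g g' X * cj g g' Y := by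
  rw [cj_apply, cj_apply, cj_apply]
  have h1 : g * X * g' * (g * Y * g') = g * X * (g' * g) * Y * g' := by noncomm_ring
  rw [h1, h', mul_one]
  noncomm_ring

theorem pow_mul_zero (h' : g' * g = 1) (μ ν : K) : ∀ (n a b : ℕ) (X Y : End K V), a + b ≤ n →
    ((cj g g' - algebraMap K _ μ) ^ a) X = 0 → ((cj g g' - algebraMap K _ ν) ^ b) Y = 0 →
    ((cj g g' - algebraMap K _ (μ * ν)) ^ n) (X * Y) = 0 := by
  intro n
  induction n with
  | zero =>
    intro a b X Y hab hX hY
    obtain rfl : a = 0 := by omega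
    rw [pow_zero, Module.End.one_apply] at hX
    rw [pow_zero, Module.End.one_apply, hX, zero_mul]
  | succ n ih =>
    intro a b X Y hab hX hY
    rcases Nat.eq_zero_or_pos a with ha | ha
    · subst ha
      rw [pow_zero, Module.End.one_apply] at hX
      rw [hX, zero_mul, map_zero]
    rcases Nat.eq_zero_or_pos b with hb | hb
    · subst hb
      rw [pow_zero, Module.End.one_apply] at hY
      rw [hY, mul_zero, map_zero]
    obtain ⟨a, rfl⟩ : ∃ c, a = c + 1 := ⟨a - 1, by omega⟩
    obtain ⟨b, rfl⟩ : ∃ c, b = c + 1 := ⟨b - 1, by omega⟩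
    have h1 : (cj g g' - algebraMap K (End K (End K V)) (μ * ν)) (X * Y) =
        ((cj g g' - algebraMap K _ μ) X) * cj g g' Y +
          μ • (X * ((cj g g' - algebraMap K _ ν) Y)) := by
      rw [LinearMap.sub_apply, cj_mul h', LinearMap.sub_apply, LinearMap.sub_apply,
        Module.algebraMap_end_apply, Module.algebraMap_end_apply, Module.algebraMap_end_apply,
        sub_mul, mul_sub, smul_sub, smul_mul_assoc, mul_smul_comm, mul_smul]
      abel
    rw [pow_succ, Module.End.mul_apply, h1, map_add, map_smul]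
    have e1 : ((cj g g' - algebraMap K (End K (End K V)) μ) ^ a)
        ((cj g g' - algebraMap K _ μ) X) = 0 := by
      rw [← Module.End.mul_apply, ← pow_succ]
      exact hX
    have e2 : ((cj g g' - algebraMap K (End K (End K V)) ν) ^ b)
        ((cj g g' - algebraMap K _ ν) Y) = 0 := by
      rw [← Module.End.mul_apply, ← pow_succ]
      exact hY
    have hc : Commute (cj g g') (cj g g' - algebraMap K (End K (End K V)) ν) :=
      (Commute.refl _).sub_right (Algebra.commutes _ _).symm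
    have e3 : ((cj g g' - algebraMap K (End K (End K V)) ν) ^ (b + 1)) (cj g g' Y) = 0 := by
      rw [← Module.End.mul_apply, ← (hc.pow_right (b + 1)).eq, Module.End.mul_apply, hY, map_zero]
    rw [ih a (b + 1) _ _ (by omega) e1 e3, ih (a + 1) b _ _ (by omega) hX e2, smul_zero, add_zero]

theorem ge_mul (h' : g' * g = 1) {μ ν : K} {X Y : End K V} (hX : X ∈ ge g g' μ)
    (hY : Y ∈ ge g g' ν) : X * Y ∈ ge g g' (μ * ν) := by
  rw [mem_ge] at *
  obtain ⟨a, ha⟩ := hX
  obtain ⟨b, hb⟩ := hY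
  exact ⟨a + b, pow_mul_zero h' μ ν (a + b) a b X Y le_rfl ha hb⟩

theorem ge_one (h : g * g' = 1) : (1 : End K V) ∈ ge g g' (1 : K) := by
  rw [mem_ge]
  refine ⟨1, ?_⟩
  rw [pow_one, LinearMap.sub_apply, cj_apply, mul_one, h, Module.algebraMap_end_apply, one_smul,
    sub_self]

theorem ge_pow (h : g * g' = 1) (h' : g' * g = 1) {μ : K} {X : End K V} (hX : X ∈ ge g g' μ)
    (n : ℕ) : X ^ n ∈ ge g g' (μ ^ n) := by
  induction n with
  | zero =>
    rw [pow_zero, pow_zero]
    exact ge_one h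
  | succ n ih =>
    rw [pow_succ, pow_succ]
    exact ge_mul h' ih hX

theorem ge_brk (h' : g' * g = 1) {μ ν : K} {X Y : End K V} (hX : X ∈ ge g g' μ)
    (hY : Y ∈ ge g g' ν) : X * Y - Y * X ∈ ge g g' (μ * ν) := by
  refine (ge g g' (μ * ν)).sub_mem (ge_mul h' hX hY) ?_
  rw [mul_comm]
  exact ge_mul h' hY hX

variable [FiniteDimensional K V]

theorem tr_cj (h' : g' * g = 1) (X : End K V) :
    LinearMap.trace K V (cj g g' X) = LinearMap.trace K V X := by
  rw [cj_apply, LinearMap.trace_mul_comm, ← mul_assoc, h', one_mul]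

theorem tr_ge (h' : g' * g = 1) {μ : K} (hμ : μ ≠ 1) {X : End K V} (hX : X ∈ ge g g' μ) :
    LinearMap.trace K V X = 0 := by
  rw [mem_ge] at hX
  obtain ⟨n, hn⟩ := hX
  have key : ∀ (n : ℕ) (Y : End K V),
      LinearMap.trace K V (((cj g g' - algebraMap K _ μ) ^ n) Y) =
        (1 - μ) ^ n * LinearMap.trace K V Y := by
    intro n
    induction n with
    | zero =>
      intro Y
      rw [pow_zero, pow_zero, one_mul, Module.End.one_apply]
    | succ n ih =>
      intro Y
      rw [pow_succ, Module.End.mul_apply, ih, LinearMap.sub_apply, map_sub, tr_cj h',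
        Module.algebraMap_end_apply, map_smul, smul_eq_mul]
      ring
  have h1 := key n X
  rw [hn, map_zero] at h1
  exact (mul_eq_zero.1 h1.symm).resolve_left (pow_ne_zero _ (sub_ne_zero.2 (Ne.symm hμ)))

theorem tr_ge2 (h' : g' * g = 1) {μ ν : K} (hμ : μ * ν ≠ 1) {X Y : End K V}
    (hX : X ∈ ge g g' μ) (hY : Y ∈ ge g g' ν) : LinearMap.trace K V (X * Y) = 0 :=
  tr_ge h' hμ (ge_mul h' hX hY)

/-- elements of the eigenspaces for numbers which are not roots of unity are nilpotent -/
theorem nil_ge (h : g * g' = 1) (h' : g' * g = 1) {μ : K} (hμ0 : μ ≠ 0)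
    (hμ : ∀ n : ℕ, 0 < n → μ ^ n ≠ 1) {X : End K V} (hX : X ∈ ge g g' μ) : IsNilpotent X := by
  by_contra hn
  have h1 : ∀ n : ℕ, X ^ n ≠ 0 := fun n h0 => hn ⟨n, h0⟩
  have h2 : ∀ n : ℕ, (cj g g').HasEigenvalue (μ ^ n) := by
    intro n
    have h3 := ge_pow h h' hX n
    have h4 : (cj g g').HasUnifEigenvalue (μ ^ n) ⊤ := by
      intro h5
      have h6 : X ^ n ∈ Module.End.genEigenspace (cj g g') (μ ^ n) ⊤ := h3
      rw [h5, Submodule.mem_bot] at h6
      exact h1 n h6
    exact h4.lt zero_lt_one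
  have hinj : Function.Injective fun n : ℕ => μ ^ n := by
    intro a b hab
    change μ ^ a = μ ^ b at hab
    by_contra hne
    rcases Nat.lt_or_gt_of_ne hne with h7 | h7
    · apply hμ (b - a) (by omega)
      have h8 : μ ^ a * μ ^ (b - a) = μ ^ a * 1 := by
        rw [← pow_add, mul_one, hab]
        congr 1
        omega
      exact mul_left_cancel₀ (pow_ne_zero _ hμ0) h8
    · apply hμ (a - b) (by omega)
      have h8 : μ ^ b * μ ^ (a - b) = μ ^ b * 1 := by
        rw [← pow_add, mul_one, ← hab]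
        congr 1
        omega
      exact mul_left_cancel₀ (pow_ne_zero _ hμ0) h8
  have hfin := Module.End.finite_hasEigenvalue (cj g g')
  exact Set.infinite_of_injective_forall_mem hinj h2 hfin

/-! ### The components in a stable subspace -/

variable [IsAlgClosed K]

/-- a stable subspace is the sum of its parts in the generalized eigenspaces -/
theorem ind_stable {G : Submodule K (End K V)} (hG : ∀ X ∈ G, cj g g' X ∈ G)
    {P : End K V → Prop} (h0 : P 0) (hadd : ∀ X Y, P X → P Y → P (X + Y))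
    (h : ∀ μ, ∀ X ∈ G, X ∈ ge g g' μ → P X) {X : End K V} (hX : X ∈ G) : P X := by
  have h1 : X ∈ ⨆ μ, G ⊓ Module.End.genEigenspace (cj g g') μ ⊤ := by
    rw [← Submodule.inf_iSup_genEigenspace hG ⊤]
    refine ⟨hX, ?_⟩
    have h2 := Module.End.iSup_maxGenEigenspace_eq_top (cj g g')
    have h3 : X ∈ ⨆ μ, Module.End.maxGenEigenspace (cj g g') μ := by
      rw [h2]
      exact Submodule.mem_top
    exact h3
  refine Submodule.iSup_induction _ (motive := P) h1 (fun μ Y hY => h μ Y hY.1 hY.2) h0 hadd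

/-- `g` separates the roots of `G`: the part of `G` in the generalized eigenspace for `1` of the
conjugation by `g` is commutative, the parts for the other roots of unity are zero, and the other
parts have at most dimension one -/
structure Sep (g g' : End K V) (G : Submodule K (End K V)) : Prop where
  comm : ∀ X ∈ G, X ∈ ge g g' 1 → ∀ Y ∈ G, Y ∈ ge g g' 1 → X * Y = Y * X
  unity : ∀ (μ : K) (n : ℕ), μ ≠ 1 → 0 < n → μ ^ n = 1 → ∀ X ∈ G, X ∈ ge g g' μ → X = 0
  simple : ∀ μ : K, μ ≠ 1 → ∀ X ∈ G, X ∈ ge g g' μ → ∀ Y ∈ G, Y ∈ ge g g' μ → X ≠ 0 →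
    ∃ c : K, Y = c • X

/-- the part of `G` centralized by the semisimple part of `g` -/
def fx (g g' : End K V) (G : Submodule K (End K V)) : Submodule K (End K V) := G ⊓ ge g g' 1

variable {G L : Submodule K (End K V)}

/-- the centralizer normalizes every stable Lie subalgebra -/
theorem fx_norm (h' : g' * g = 1) (hs : Sep g g' G) (hG : IsLie G) (hLG : L ≤ G)
    (hL : ∀ X ∈ L, cj g g' X ∈ L) {X : End K V} (hX : X ∈ fx g g' G) {Y : End K V} (hY : Y ∈ L) :
    X * Y - Y * X ∈ L := by
  refine ind_stable (P := fun Y => X * Y - Y * X ∈ L) hL ?_ ?_ ?_ hY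
  · rw [mul_zero, zero_mul, sub_self]
    exact L.zero_mem
  · intro Y Z h1 h2
    have h3 : X * (Y + Z) - (Y + Z) * X = (X * Y - Y * X) + (X * Z - Z * X) := by noncomm_ring
    rw [h3]
    exact L.add_mem h1 h2
  · intro μ Y hY hYμ
    by_cases hμ : μ = 1
    · subst hμ
      rw [hs.comm X hX.1 hX.2 Y (hLG hY) hYμ, sub_self]
      exact L.zero_mem
    by_cases hY0 : Y = 0
    · rw [hY0, mul_zero, zero_mul, sub_self]
      exact L.zero_mem
    have h1 := ge_brk h' hX.2 hYμ
    rw [one_mul] at h1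
    obtain ⟨c, hc⟩ := hs.simple μ hμ Y (hLG hY) hYμ _ (hG X hX.1 Y (hLG hY)) h1 hY0
    rw [hc]
    exact L.smul_mem c hY

theorem fx_le (h' : g' * g = 1) (hs : Sep g g' G) (hG : IsLie G) (hLG : L ≤ G)
    (hL : ∀ X ∈ L, cj g g' X ∈ L) (hLie : IsLie L) (hnd : NonDeg L)
    (hz : ∀ z ∈ G, (∀ X ∈ L, z * X = X * z) → z ∈ L) : fx g g' G ≤ L := by
  intro X hX
  obtain ⟨l, hl, hc⟩ := exists_split hnd hLie (X := X)
    fun Y hY => fx_norm h' hs hG hLG hL hX hY
  have h1 := hz (X - l) (G.sub_mem hX.1 (hLG hl)) hc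
  have h2 := L.add_mem h1 hl
  rwa [sub_add_cancel] at h2

/-- nondegeneracy on the centralizer -/
theorem fx_nondeg (h' : g' * g = 1) (hG : ∀ X ∈ G, cj g g' X ∈ G) (hnd : NonDeg G)
    {c : End K V} (hc : c ∈ fx g g' G)
    (h : ∀ a ∈ fx g g' G, LinearMap.trace K V (a * c) = 0) : c = 0 := by
  refine hnd c hc.1 fun Y hY => ?_
  rw [LinearMap.trace_mul_comm]
  refine ind_stable (P := fun Y => LinearMap.trace K V (Y * c) = 0) hG ?_ ?_ ?_ hY
  · rw [zero_mul, map_zero]
  · intro Y Z h1 h2
    rw [add_mul, map_add, h1, h2, add_zero]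
  · intro μ Y hY hYμ
    by_cases hμ : μ = 1
    · subst hμ
      exact h Y ⟨hY, hYμ⟩
    · exact tr_ge2 h' (by rwa [mul_one]) hYμ hc.2

theorem tr_comm_nil {x y : End K V} (hx : IsNilpotent x) (hxy : x * y = y * x) :
    LinearMap.trace K V (x * y) = 0 := by
  have h1 : IsNilpotent (x * y) := Commute.isNilpotent_mul_right hxy hx
  exact (LinearMap.isNilpotent_trace_of_isNilpotent h1).eq_zero

/-- the centralizer is its own centralizer -/
theorem fx_cen (h : g * g' = 1) (h' : g' * g = 1) (hs : Sep g g' G) (hG : IsLie G)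
    (hGs : ∀ X ∈ G, cj g g' X ∈ G) (hnd : NonDeg G) {x : End K V} (hx : x ∈ G)
    (hxt : ∀ a ∈ fx g g' G, a * x = x * a) : x ∈ fx g g' G := by
  -- the components
  have comp : ∀ ν : K, ∀ w ∈ G, w ∈ ge g g' ν → ν ≠ 0 → ∀ x ∈ G,
      ∃ y ∈ G, y ∈ ge g g' ν⁻¹ ∧ LinearMap.trace K V ((x - y) * w) = 0 ∧
        ∀ a ∈ fx g g' G, LinearMap.trace K V (a * ((x - y) * w - w * (x - y))) = 0 := by
    intro ν w hw hwν hν x hx
    refine ind_stable (P := fun x => ∃ y ∈ G, y ∈ ge g g' ν⁻¹ ∧
      LinearMap.trace K V ((x - y) * w) = 0 ∧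
        ∀ a ∈ fx g g' G, LinearMap.trace K V (a * ((x - y) * w - w * (x - y))) = 0) hGs ?_ ?_ ?_ hx
    · refine ⟨0, G.zero_mem, Submodule.zero_mem _, ?_, fun a _ => ?_⟩
      · rw [sub_self, zero_mul, map_zero]
      · rw [sub_self, zero_mul, mul_zero, sub_self, mul_zero, map_zero]
    · rintro x x' ⟨y, h1, h2, h3, h4⟩ ⟨y', h1', h2', h3', h4'⟩
      refine ⟨y + y', G.add_mem h1 h1', Submodule.add_mem _ h2 h2', ?_, fun a ha => ?_⟩
      · have e : (x + x' - (y + y')) * w = (x - y) * w + (x' - y') * w := by noncomm_ring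
        rw [e, map_add, h3, h3', add_zero]
      · have e : a * ((x + x' - (y + y')) * w - w * (x + x' - (y + y'))) =
            a * ((x - y) * w - w * (x - y)) + a * ((x' - y') * w - w * (x' - y')) := by
          noncomm_ring
        rw [e, map_add, h4 a ha, h4' a ha, add_zero]
    · intro μ x hx hxμ
      by_cases hμ : μ = ν⁻¹
      · refine ⟨x, hx, by rw [← hμ]; exact hxμ, ?_, fun a _ => ?_⟩
        · rw [sub_self, zero_mul, map_zero]
        · rw [sub_self, zero_mul, mul_zero, sub_self, mul_zero, map_zero]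
      · have hμν : μ * ν ≠ 1 := fun h1 => hμ (eq_inv_of_mul_eq_one_left h1)
        refine ⟨0, G.zero_mem, Submodule.zero_mem _, ?_, fun a ha => ?_⟩
        · rw [sub_zero]
          exact tr_ge2 h' hμν hxμ hwν
        · rw [sub_zero]
          exact tr_ge2 h' (by rwa [one_mul]) ha.2 (ge_brk h' hxμ hwν)
  -- orthogonality to the root spaces
  have orth : ∀ ν : K, ν ≠ 1 → ∀ w ∈ G, w ∈ ge g g' ν → LinearMap.trace K V (x * w) = 0 := by
    intro ν hν w hw hwν
    by_cases hw0 : w = 0
    · rw [hw0, mul_zero, map_zero]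
    have hroot : ∀ n : ℕ, 0 < n → ν ^ n ≠ 1 := fun n hn h1 =>
      hw0 (hs.unity ν n hν hn h1 w hw hwν)
    have hν0 : ν ≠ 0 := by
      rintro rfl
      apply hw0
      rw [mem_ge] at hwν
      obtain ⟨n, hn⟩ := hwν
      rw [map_zero, sub_zero] at hn
      have hinj : Function.Injective (cj g g') := by
        intro a b hab
        rw [cj_apply, cj_apply] at hab
        have h1 : g' * (g * a * g') * g = g' * (g * b * g') * g := by rw [hab]
        have h2 : ∀ c : End K V, g' * (g * c * g') * g = (g' * g) * c * (g' * g) := by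
          intro c
          noncomm_ring
        rw [h2, h2, h', one_mul, mul_one, one_mul, mul_one] at h1
        exact h1
      have h3 : Function.Injective ((cj g g') ^ n) := by
        rw [Module.End.coe_pow]
        exact hinj.iterate n
      exact h3 (hn.trans (map_zero _).symm)
    obtain ⟨y, hy, hyν, hy1, hy2⟩ := comp ν w hw hwν hν0 x hx
    -- the bracket of `y` and `w` is zero
    have hbt : y * w - w * y ∈ fx g g' G := by
      refine ⟨hG y hy w hw, ?_⟩
      have h1 := ge_brk h' hyν hwν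
      rwa [inv_mul_cancel₀ hν0] at h1
    have hb0 : y * w - w * y = 0 := by
      refine fx_nondeg h' hGs hnd hbt fun a ha => ?_
      have h1 := hy2 a ha
      have h2 : a * ((x - y) * w - w * (x - y)) =
          a * (x * w - w * x) - a * (y * w - w * y) := by noncomm_ring
      rw [h2, map_sub] at h1
      have h3 : LinearMap.trace K V (a * (x * w - w * x)) = 0 := by
        have h4 : a * (x * w - w * x) = a * x * w - a * w * x := by noncomm_ring
        rw [h4, map_sub, LinearMap.trace_mul_comm K (a * w) x, ← mul_assoc, ← hxt a ha, sub_self]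
      rw [h3, zero_sub, neg_eq_zero] at h1
      exact h1
    have hnil := nil_ge h h' hν0 hroot hwν
    have h5 : LinearMap.trace K V (y * w) = 0 := by
      rw [LinearMap.trace_mul_comm]
      exact tr_comm_nil hnil (sub_eq_zero.1 hb0).symm
    have h6 : x * w = (x - y) * w + y * w := by noncomm_ring
    rw [h6, map_add, hy1, h5, add_zero]
  -- the component for `1`
  obtain ⟨x₁, hx₁, hx₁t⟩ : ∃ x₁ ∈ fx g g' G,
      ∀ a ∈ fx g g' G, LinearMap.trace K V ((x - x₁) * a) = 0 := by
    refine ind_stable (P := fun x => ∃ x₁ ∈ fx g g' G,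
      ∀ a ∈ fx g g' G, LinearMap.trace K V ((x - x₁) * a) = 0) hGs ?_ ?_ ?_ hx
    · refine ⟨0, Submodule.zero_mem _, fun a _ => ?_⟩
      rw [sub_self, zero_mul, map_zero]
    · rintro x x' ⟨y, h1, h2⟩ ⟨y', h1', h2'⟩
      refine ⟨y + y', Submodule.add_mem _ h1 h1', fun a ha => ?_⟩
      have e : (x + x' - (y + y')) * a = (x - y) * a + (x' - y') * a := by noncomm_ring
      rw [e, map_add, h2 a ha, h2' a ha, add_zero]
    · intro μ x hx hxμ
      by_cases hμ : μ = 1
      · subst hμ
        refine ⟨x, ⟨hx, hxμ⟩, fun a _ => ?_⟩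
        rw [sub_self, zero_mul, map_zero]
      · refine ⟨0, Submodule.zero_mem _, fun a ha => ?_⟩
        rw [sub_zero]
        exact tr_ge2 h' (by rwa [mul_one]) hxμ ha.2
  have h1 : x - x₁ = 0 := by
    refine hnd _ (G.sub_mem hx hx₁.1) fun Y hY => ?_
    refine ind_stable (P := fun Y => LinearMap.trace K V ((x - x₁) * Y) = 0) hGs ?_ ?_ ?_ hY
    · rw [mul_zero, map_zero]
    · intro Y Z h1 h2
      rw [mul_add, map_add, h1, h2, add_zero]
    · intro μ Y hY hYμ
      by_cases hμ : μ = 1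
      · subst hμ
        exact hx₁t Y ⟨hY, hYμ⟩
      · rw [sub_mul, map_sub, orth μ hμ Y hY hYμ, tr_ge2 h' (by rwa [one_mul]) hx₁.2 hYμ,
          sub_self]
  rw [sub_eq_zero.1 h1]
  exact hx₁

/-- the elements of the centralizer are diagonalizable -/
theorem fx_diag (h : g * g' = 1) (h' : g' * g = 1) (hs : Sep g g' G) (hG : IsLie G)
    (hGs : ∀ X ∈ G, cj g g' X ∈ G) (hnd : NonDeg G)
    (hj : ∀ x ∈ G, ∃ s ∈ G, IsSemisimplePart x s) {a : End K V} (ha : a ∈ fx g g' G) :
    ⨆ μ, End.eigenspace a μ = ⊤ := by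
  obtain ⟨s, hsG, hs1, hs2, hs3⟩ := hj a ha.1
  have h1 : ∀ b ∈ fx g g' G, b * s = s * b := fun b hb =>
    (hs3 b (hs.comm a ha.1 ha.2 b hb.1 hb.2)).symm
  have h2 : s ∈ fx g g' G := fx_cen h h' hs hG hGs hnd hsG h1
  have h3 : a - s ∈ fx g g' G := Submodule.sub_mem _ ha h2
  have h4 : a - s = 0 := by
    refine fx_nondeg h' hGs hnd h3 fun b hb => ?_
    rw [LinearMap.trace_mul_comm]
    exact tr_comm_nil hs2 (hs.comm _ h3.1 h3.2 b hb.1 hb.2)
  rw [sub_eq_zero.1 h4]
  exact hs1

end

end Pool.Agent.V5helper84.SR
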