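import Pool.Agent.V5helper84.SR.Lin
import Pool.Agent.R931.BD.Endo

/-!
# One element which separates the roots: the Tate tensors
-/

set_option autoImplicit false
set_option linter.unusedSectionVars false

namespace Pool.Agent.V5helper84.SR

open Module TensorProduct Pool.Agent.Y114.RM Pool.Agent.Y114.MU Pool.Agent.Y114.TF
  Pool.Agent.H204R3.GP Pool.Agent.R913.Adj Pool.Agent.R931.BD Pool.Agent.V5helper84.QT
  Pool.Agent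

noncomputable section

section bc

variable {k : Type} [Field k] {C : Type} [Field C] [Algebra k C] {V : Type} [AddCommGroup V]
  [Module k V]

theorem cj_bc (g g' X : End k V) :
    cj (g.baseChange C) (g'.baseChange C) (X.baseChange C) = (cj g g' X).baseChange C := by
  rw [cj_apply, cj_apply, bc_mul, bc_mul]

theorem cj_bcS {g g' : End k V} {L : Submodule k (End k V)} (hL : ∀ X ∈ L, cj g g' X ∈ L) :
    ∀ X ∈ bcS C L, cj (g.baseChange C) (g'.baseChange C) X ∈ bcS C L := by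
  intro X hX
  induction hX using Submodule.span_induction with
  | mem X hX =>
    obtain ⟨Y, hY, rfl⟩ := hX
    rw [cj_bc]
    exact mem_bcS (hL Y hY)
  | zero => rw [map_zero]; exact Submodule.zero_mem _
  | add X Y _ _ hX hY => rw [map_add]; exact Submodule.add_mem _ hX hY
  | smul c X _ hX => rw [map_smul]; exact Submodule.smul_mem _ _ hX

end bc

section main

variable {ι : Type} [Fintype ι] [DecidableEq ι] {n : ι → ℕ} {ℓ : ℕ} [hℓ : Fact ℓ.Prime]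
  {Γ : Type} [Group Γ] [TopologicalSpace Γ] [IsTopologicalGroup Γ] [CompactSpace Γ]
  (ρ : ∀ i, Representation ℚ_[ℓ] Γ (Fin (n i) → ℚ_[ℓ]))
  {𝔤 : Submodule ℚ_[ℓ] (End ℚ_[ℓ] (∀ i, Fin (n i) → ℚ_[ℓ]))}

theorem tate_of_sep (hρ : ∀ i, Continuous fun g => LinearMap.toMatrix' (ρ i g))
    (h𝔤 : IsMotivic ρ 𝔤) (hss : FiniteIndexSemisimple (sumRep ρ)) (hE : EndoT (sumRep ρ) 𝔤)
    (hC : CentreT (sumRep ρ) 𝔤) (alg : Algebra ℚ_[ℓ] ℂ) (γ : Γ)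
    (hγ : ∀ X ∈ 𝔤, sumRep ρ γ * X * sumRep ρ γ⁻¹ ∈ 𝔤)
    (hsep : Sep ((sumRep ρ γ).baseChange ℂ) ((sumRep ρ γ⁻¹).baseChange ℂ) (bcS ℂ 𝔤))
    (m : ℕ) (φ : Tensor ℚ_[ℓ] (∀ i, Fin (n i) → ℚ_[ℓ]) m) :
    TateTensor (sumRep ρ) φ ↔ ∀ X ∈ 𝔤, KillsTensor X φ := by
  refine ⟨fun hφ => ?_, fun hφ => h𝔤.tate m φ hφ⟩
  have h := inputs
  have h2 := inputs2
  obtain ⟨L, hLG, hnd, hLie, hAd, hL, hfin⟩ := exists_L ρ h𝔤 hss
  obtain ⟨Δ, hΔ, hc⟩ := hfin hρ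
  have hgg : (sumRep ρ γ).baseChange ℂ * (sumRep ρ γ⁻¹).baseChange ℂ = 1 := by
    rw [← bc_mul, rmi]
    exact LinearMap.baseChange_id
  have hgg' : (sumRep ρ γ⁻¹).baseChange ℂ * (sumRep ρ γ).baseChange ℂ = 1 := by
    rw [← bc_mul, rim]
    exact LinearMap.baseChange_id
  have hGC : IsLie (bcS ℂ 𝔤) := (h.bc ℚ_[ℓ] ℂ _ 𝔤).2.1 h𝔤.bracket
  have hLC : IsLie (bcS ℂ L) := (h.bc ℚ_[ℓ] ℂ _ L).2.1 hLie
  have hNG : NonDeg (bcS ℂ 𝔤) := (h.bc ℚ_[ℓ] ℂ _ 𝔤).2.2.1 h𝔤.nondeg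
  have hNL : NonDeg (bcS ℂ L) := (h.bc ℚ_[ℓ] ℂ _ L).2.2.1 hnd
  have hGs := cj_bcS (C := ℂ) (g := sumRep ρ γ) (g' := sumRep ρ γ⁻¹) (L := 𝔤)
    (fun X hX => by rw [cj_apply]; exact hγ X hX)
  have hLs := cj_bcS (C := ℂ) (g := sumRep ρ γ) (g' := sumRep ρ γ⁻¹) (L := L)
    (fun X hX => by rw [cj_apply]; exact hAd γ X hX)
  have hz : ∀ z ∈ bcS ℂ 𝔤, (∀ X ∈ bcS ℂ L, z * X = X * z) → z ∈ bcS ℂ L := by
    intro z hz hzL
    rw [(h.bc ℚ_[ℓ] ℂ _ L).1]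
    intro π
    have h3 : (pM π z : End ℚ_[ℓ] (∀ i, Fin (n i) → ℚ_[ℓ])) ∈ 𝔤 :=
      ((h.bc ℚ_[ℓ] ℂ _ 𝔤).1 z).1 hz π
    have h4 : ∀ X ∈ L, X * pM π z = pM π z * X := by
      intro X hX
      rw [← pM_bc_mul, ← hzL _ (mem_bcS hX), pM_mul_bc]
    have h5 := hE (pM π z) ⟨Δ, hΔ, fun δ hδ => (hc δ hδ _ h4).symm⟩
    exact (hL _).2 (hC _ h3 fun X hX => (h5 X hX).symm)
  have htL := fx_le hgg' hsep hGC (bcS_mono hLG) hLs hLC hNL hz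
  have hfull : L = 𝔤 := by
    refine full_of_endos ρ hρ 𝔤 h𝔤 alg hss hL hLie hLG hnd htL
      (fun a ha => fx_diag hgg hgg' hsep hGC hGs hNG (h2.jord ℚ_[ℓ] ℂ _ 𝔤 h𝔤.algebraic) ha)
      (fun a ha b hb => hsep.comm a ha.1 ha.2 b hb.1 hb.2)
      (fun x hx hxt => fx_cen hgg hgg' hsep hGC hGs hNG hx hxt) ?_
    rintro Y ⟨Δ', hΔ', hY⟩ X hX
    exact hE Y ⟨Δ', hΔ', fun δ hδ => (hY δ hδ).symm⟩ X hX
  intro X hX
  exact (hL X).1 (hfull ▸ hX) m φ hφ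

end main

end

end Pool.Agent.V5helper84.SR
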