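import Pool.Agent.V5helper84.SR.Comb
import Pool.Agent.V5helper84.SR.Frob
import Pool.Agent.Y4.Aut
import Pool.Agent.TH170.GH.Total

/-!
# Families of CM types without relations between four slopes
-/

set_option autoImplicit false
set_option linter.unusedSectionVars false

namespace Pool.Agent.V5helper84.SR

open NumberField Module Polynomial Pool.Agent.H204R3.CM

noncomputable section

section emb

variable {I : Type} (K : I → Type) [∀ i, Field (K i)]

/-- the complex embeddings of the fields `K i` -/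
abbrev Emb : Type := Σ i, (K i →+* ℂ)

variable {K}

/-- the complex conjugation -/
def cc (x : Emb K) : Emb K := ⟨x.1, ComplexEmbedding.conjugate x.2⟩

/-- the action of the automorphisms of `ℂ` -/
def ac (σ : ℂ ≃+* ℂ) (x : Emb K) : Emb K := ⟨x.1, (σ : ℂ →+* ℂ).comp x.2⟩

theorem cc_cc (x : Emb K) : cc (cc x) = x := by
  obtain ⟨i, φ⟩ := x
  unfold cc
  rw [Pool.Agent.TH170.GH.conj_conj]

theorem ac_inj (σ : ℂ ≃+* ℂ) : Function.Injective (ac (K := K) σ) := by
  rintro ⟨i, φ⟩ ⟨j, ψ⟩ h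
  unfold ac at h
  obtain rfl : i = j := congrArg Sigma.fst h
  have h1 : (σ : ℂ →+* ℂ).comp φ = (σ : ℂ →+* ℂ).comp ψ := eq_of_heq (Sigma.mk.inj h).2
  have h2 : φ = ψ := RingHom.ext fun x => σ.injective (RingHom.congr_fun h1 x)
  rw [h2]

theorem ac_ac (σ τ : ℂ ≃+* ℂ) (x : Emb K) : ac (σ.trans τ) x = ac τ (ac σ x) := rfl

variable [∀ i, NumberField (K i)]

theorem exists_ac {x y : Emb K} (h : x.1 = y.1) : ∃ σ, ac σ x = y := by
  obtain ⟨i, φ⟩ := x
  obtain ⟨j, ψ⟩ := y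
  obtain rfl : i = j := h
  obtain ⟨σ, hσ⟩ := Pool.Agent.Y4.exists_aut_emb φ ψ
  exact ⟨σ, by unfold ac; rw [hσ]⟩

variable [∀ i, IsCMField (K i)]

theorem cc_ne (x : Emb K) : cc x ≠ x := by
  obtain ⟨i, φ⟩ := x
  intro h
  exact Pool.Agent.TH170.GH.conjugate_ne φ (eq_of_heq (Sigma.mk.inj h).2)

theorem ac_cc (σ : ℂ ≃+* ℂ) (x : Emb K) : ac σ (cc x) = cc (ac σ x) := by
  obtain ⟨i, φ⟩ := x
  have h : (σ : ℂ →+* ℂ).comp (ComplexEmbedding.conjugate φ) =
      ComplexEmbedding.conjugate ((σ : ℂ →+* ℂ).comp φ) := by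
    ext x
    have h1 := IsCMField.complexEmbedding_complexConj (K i) φ x
    have h2 := IsCMField.complexEmbedding_complexConj (K i) ((σ : ℂ →+* ℂ).comp φ) x
    change σ (starRingEnd ℂ (φ x)) = starRingEnd ℂ (σ (φ x))
    rw [← h1]
    exact h2
  unfold ac cc
  rw [h]

end emb

section count

open Classical in
/-- the sign function of a family of CM types -/
def us {I : Type} {K : I → Type} [∀ i, Field (K i)] (Φ : ∀ i, Set (K i →+* ℂ)) : Emb K → Bool :=
  fun x => decide (x.2 ∈ Φ x.1)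

variable {I : Type} {K : I → Type} [∀ i, Field (K i)]

theorem us_inj : Function.Injective (us (K := K)) := by
  intro Φ Ψ h
  funext i
  ext φ
  have h1 := congrFun h ⟨i, φ⟩
  unfold us at h1
  exact decide_eq_decide.1 h1

theorem isSign_us {Φ : ∀ i, Set (K i →+* ℂ)} (hΦ : ∀ i, IsCMType (Φ i)) : IsSign cc (us Φ) := by
  classical
  rintro ⟨i, φ⟩
  unfold us cc
  have h1 := hΦ i φ
  by_cases h2 : φ ∈ Φ i
  · rw [decide_eq_true h2, decide_eq_false (h1.1 h2)]
    rfl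
  · rw [decide_eq_false h2, decide_eq_true (not_not.1 fun h3 => h2 (h1.2 h3))]
    rfl

/-- there is no nontrivial relation between four slopes -/
def Good (M : ∀ i, (K i →+* ℂ) → ℝ) (Φ : ∀ i, Set (K i →+* ℂ)) : Prop :=
  ∀ q : Emb K × Emb K × Emb K × Emb K, Nontriv cc q →
    ¬ Rel4 (fun x : Emb K => M x.1 x.2) ac q (us Φ)

variable [Fintype I] [∀ i, NumberField (K i)] [∀ i, IsCMField (K i)]

open Classical in
/-- **The number of the families of CM types with a nontrivial relation between four slopes.** -/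
theorem fam_count {g : I → ℕ} (hg : ∀ i, finrank ℚ (K i) = 2 * g i)
    {M : ∀ i, (K i →+* ℂ) → ℝ} (hM : ∀ i φ, M i (ComplexEmbedding.conjugate φ) = M i φ) {m : ℕ}
    (hm : ∀ i, 8 * m ≤ {φ : K i →+* ℂ | M i φ ≠ 0}.ncard + 7)
    {H : (∀ i, Set (K i →+* ℂ)) → Prop}
    (hH : ∀ Φ, (∀ i, IsCMType (Φ i)) → Good M Φ → H Φ) :
    2 ^ m * {Φ : ∀ i, Set (K i →+* ℂ) | (∀ i, IsCMType (Φ i)) ∧ ¬ H Φ}.ncard ≤
      Fintype.card I * (2 * ∑ i, g i) ^ 3 * 2 ^ (∑ i, g i) := by
  have hcard : Fintype.card (Emb K) = 2 * ∑ i, g i := by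
    rw [Fintype.card_sigma, Finset.mul_sum]
    exact Finset.sum_congr rfl fun i _ => by rw [Embeddings.card, hg]
  have h1 : {u : Emb K → Bool | IsSign cc u}.ncard = 2 ^ (∑ i, g i) :=
    Pool.Agent.TH170.GH.ncard_odd cc cc_cc cc_ne hcard
  have hne : ∀ i, Nonempty (K i →+* ℂ) := fun i => inferInstance
  let R : Finset (Emb K) := Finset.univ.image fun i => ⟨i, (hne i).some⟩
  have hRcard : R.card ≤ Fintype.card I :=
    Finset.card_image_le.trans (le_of_eq (Finset.card_univ))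
  have hR : ∀ x : Emb K, ∃ σ : ℂ ≃+* ℂ, ac σ x ∈ R := by
    intro x
    obtain ⟨σ, hσ⟩ := exists_ac (x := x) (y := ⟨x.1, (hne x.1).some⟩) rfl
    exact ⟨σ, by rw [hσ]; exact Finset.mem_image_of_mem _ (Finset.mem_univ x.1)⟩
  have h2 := bad_count (S := Emb K) (c := cc) (M := fun x => M x.1 x.2) (act := ac) ac_inj ac_cc
    (fun σ τ => ⟨σ.trans τ, fun x => ac_ac σ τ x⟩) cc_cc cc_ne (fun x => hM x.1 x.2) (m := m) ?_
    R hR
  · rw [h1, hcard] at h2
    refine le_trans (Nat.mul_le_mul_left _ ?_) (h2.trans (Nat.mul_le_mul_right _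
      (Nat.mul_le_mul_right _ hRcard)))
    refine Set.ncard_le_ncard_of_injOn us ?_ us_inj.injOn (Set.toFinite _)
    rintro Φ ⟨hΦ, hn⟩
    refine ⟨isSign_us hΦ, ?_⟩
    by_contra hcon
    push Not at hcon
    exact hn (hH Φ hΦ hcon)
  · rintro ⟨i, φ⟩
    refine (hm i).trans (Nat.add_le_add_right ?_ 7)
    rw [← Set.ncard_coe_finset]
    refine Set.ncard_le_ncard_of_injOn (fun ψ => (⟨i, ψ⟩ : Emb K)) ?_ ?_ (Set.toFinite _)
    · intro ψ hψ
      rw [Finset.mem_coe, Finset.mem_filter]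
      exact ⟨Finset.mem_univ _, hψ, exists_ac rfl⟩
    · intro ψ _ ψ' _ h
      exact eq_of_heq (Sigma.mk.inj h).2

end count

end

end Pool.Agent.V5helper84.SR
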